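import Mathlib

/-!
Basic tools for the product-set theorem: finite averages, iterated ultrafilter
quantifiers over lists of natural numbers, and sequence selection.
-/

namespace SynProd

open Finset Filter

/-! ### Averages -/

/-- The average of `f` over the finite set `V`. -/
noncomputable def av {α : Type} (V : Finset α) (f : α → ℝ) : ℝ := (∑ a ∈ V, f a) / V.card

theorem av_mono {α : Type} {V : Finset α} {f g : α → ℝ} (h : ∀ a ∈ V, f a ≤ g a) :
    av V f ≤ av V g := by
  unfold av
  exact div_le_div_of_nonneg_right (Finset.sum_le_sum h) (Nat.cast_nonneg _)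

theorem av_congr {α : Type} {V : Finset α} {f g : α → ℝ} (h : ∀ a ∈ V, f a = g a) :
    av V f = av V g := by
  unfold av
  rw [Finset.sum_congr rfl h]

theorem av_add {α : Type} (V : Finset α) (f g : α → ℝ) :
    av V (fun a => f a + g a) = av V f + av V g := by
  unfold av
  rw [Finset.sum_add_distrib, add_div]

theorem av_sub {α : Type} (V : Finset α) (f g : α → ℝ) :
    av V (fun a => f a - g a) = av V f - av V g := by
  unfold av
  rw [Finset.sum_sub_distrib, sub_div]

theorem av_mul {α : Type} (V : Finset α) (c : ℝ) (f : α → ℝ) :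
    av V (fun a => c * f a) = c * av V f := by
  unfold av
  rw [← Finset.mul_sum, mul_div_assoc]

theorem av_sum {α ι : Type} (V : Finset α) (s : Finset ι) (f : ι → α → ℝ) :
    av V (fun a => ∑ i ∈ s, f i a) = ∑ i ∈ s, av V (f i) := by
  unfold av
  rw [Finset.sum_comm, Finset.sum_div]

theorem av_const {α : Type} {V : Finset α} (hV : V.Nonempty) (c : ℝ) :
    av V (fun _ => c) = c := by
  unfold av
  have : (V.card : ℝ) ≠ 0 := by
    have := hV.card_pos
    positivity
  rw [Finset.sum_const, nsmul_eq_mul]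
  field_simp

theorem av_nonneg {α : Type} {V : Finset α} {f : α → ℝ} (h : ∀ a ∈ V, 0 ≤ f a) :
    0 ≤ av V f := by
  unfold av
  exact div_nonneg (Finset.sum_nonneg h) (Nat.cast_nonneg _)

theorem av_le {α : Type} {V : Finset α} (hV : V.Nonempty) {f : α → ℝ} {c : ℝ}
    (h : ∀ a ∈ V, f a ≤ c) : av V f ≤ c := by
  calc av V f ≤ av V (fun _ => c) := av_mono h
    _ = c := av_const hV c

theorem le_av {α : Type} {V : Finset α} (hV : V.Nonempty) {f : α → ℝ} {c : ℝ}
    (h : ∀ a ∈ V, c ≤ f a) : c ≤ av V f := by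
  calc c = av V (fun _ => c) := (av_const hV c).symm
    _ ≤ av V f := av_mono h

theorem av_singleton {α : Type} (a : α) (f : α → ℝ) : av {a} f = f a := by
  unfold av
  simp

theorem av_comm {α β : Type} (V : Finset α) (W : Finset β) (f : α → β → ℝ) :
    av V (fun a => av W (f a)) = av W (fun b => av V (fun a => f a b)) := by
  unfold av
  rw [← Finset.sum_div, ← Finset.sum_div, Finset.sum_comm, div_right_comm]

theorem abs_av_sub_le {α : Type} {V : Finset α} (hV : V.Nonempty) {f g : α → ℝ} {c : ℝ}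
    (h : ∀ a ∈ V, |f a - g a| ≤ c) : |av V f - av V g| ≤ c := by
  rw [← av_sub, abs_le]
  refine ⟨le_av hV fun a ha => (abs_le.mp (h a ha)).1, av_le hV fun a ha => (abs_le.mp (h a ha)).2⟩

open Classical in
/-- The proportion of points of `V` satisfying `D`. -/
noncomputable def pr {α : Type} (V : Finset α) (D : α → Prop) : ℝ :=
  av V (fun a => if D a then 1 else 0)

theorem pr_mono {α : Type} {V : Finset α} {D D' : α → Prop} (h : ∀ a ∈ V, D a → D' a) :
    pr V D ≤ pr V D' := by
  classical
  unfold pr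
  refine av_mono fun a ha => ?_
  by_cases h1 : D a
  · simp [h1, h a ha h1]
  · simp only [h1, if_false]
    split_ifs <;> norm_num

theorem pr_nonneg {α : Type} (V : Finset α) (D : α → Prop) : 0 ≤ pr V D := by
  classical
  unfold pr
  refine av_nonneg fun a _ => ?_
  split_ifs <;> norm_num

theorem exists_of_pr_pos {α : Type} {V : Finset α} {D : α → Prop} (h : 0 < pr V D) :
    ∃ a ∈ V, D a := by
  classical
  by_contra hcon
  push Not at hcon
  have : pr V D ≤ 0 := by
    unfold pr av
    rw [Finset.sum_eq_zero]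
    · simp
    · intro a ha
      simp [hcon a ha]
  linarith

/-- Second moment inequality: many events of proportion at least `δ` cannot have all pairwise
intersections of proportion at most `δ'`. -/
theorem second_moment {α : Type} {V : Finset α} (hV : V.Nonempty) (D : ℕ → α → Prop) (N : ℕ)
    {δ δ' : ℝ} (hδ : 0 ≤ δ) (hδ' : 0 ≤ δ') (h1 : ∀ i < N, δ ≤ pr V (D i))
    (h2 : ∀ i j, i < j → j < N → pr V (fun a => D i a ∧ D j a) ≤ δ') :
    (N * δ) ^ 2 ≤ N + N ^ 2 * δ' := by
  classical
  set q : ℕ → α → ℝ := fun i a => if D i a then 1 else 0 with hq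
  set S : α → ℝ := fun a => ∑ i ∈ range N, q i a with hS
  have hmean : N * δ ≤ av V S := by
    rw [hS, av_sum]
    calc (N : ℝ) * δ = ∑ _i ∈ range N, δ := by simp
      _ ≤ ∑ i ∈ range N, av V (q i) := by
        refine Finset.sum_le_sum fun i hi => ?_
        exact h1 i (Finset.mem_range.mp hi)
  have hsq : av V (fun a => S a ^ 2) ≤ N + N ^ 2 * δ' := by
    have e1 : ∀ a, S a ^ 2 = ∑ i ∈ range N, ∑ j ∈ range N, q i a * q j a := by
      intro a
      rw [hS, sq, Finset.sum_mul_sum]
    have e2 : av V (fun a => S a ^ 2) = ∑ i ∈ range N, ∑ j ∈ range N, av V (fun a => q i a * q j a) := by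
      rw [av_congr (fun a _ => e1 a), av_sum]
      refine Finset.sum_congr rfl fun i _ => ?_
      rw [av_sum]
    rw [e2]
    have e3 : ∀ i ∈ range N, ∀ j ∈ range N, av V (fun a => q i a * q j a) ≤
        (if i = j then 1 else 0) + δ' := by
      intro i hi j hj
      rw [Finset.mem_range] at hi hj
      rcases lt_trichotomy i j with hij | hij | hij
      · have := h2 i j hij hj
        rw [if_neg hij.ne, zero_add]
        refine le_trans (av_mono fun a _ => ?_) this
        simp only [hq]
        by_cases ha : D i a <;> by_cases hb : D j a <;> simp [ha, hb]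
      · rw [if_pos hij]
        have : av V (fun a => q i a * q j a) ≤ 1 := by
          refine av_le hV fun a _ => ?_
          simp only [hq]
          by_cases ha : D i a <;> by_cases hb : D j a <;> simp [ha, hb]
        linarith
      · have := h2 j i hij hi
        rw [if_neg hij.ne', zero_add]
        refine le_trans (av_mono fun a _ => ?_) this
        simp only [hq]
        by_cases ha : D i a <;> by_cases hb : D j a <;> simp [ha, hb]
    calc ∑ i ∈ range N, ∑ j ∈ range N, av V (fun a => q i a * q j a)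
        ≤ ∑ i ∈ range N, ∑ j ∈ range N, ((if i = j then 1 else 0) + δ') :=
          Finset.sum_le_sum fun i hi => Finset.sum_le_sum fun j hj => e3 i hi j hj
      _ = N + N ^ 2 * δ' := by
          have : ∀ i ∈ range N, ∑ j ∈ range N, ((if i = j then (1:ℝ) else 0) + δ') = 1 + N * δ' := by
            intro i hi
            rw [Finset.sum_add_distrib, Finset.sum_ite_eq, if_pos hi]
            simp
          rw [Finset.sum_congr rfl this]
          simp
          ring
  have hcs : (av V S) ^ 2 ≤ av V (fun a => S a ^ 2) := by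
    set t := av V S with ht
    have e1 : av V (fun a => 2 * t * S a - t ^ 2) = 2 * t * t - t ^ 2 := by
      rw [av_sub, av_mul, av_const hV]
    have e2 : av V (fun a => 2 * t * S a - t ^ 2) ≤ av V (fun a => S a ^ 2) := by
      refine av_mono fun a _ => ?_
      nlinarith [sq_nonneg (S a - t)]
    nlinarith
  have hN : 0 ≤ (N : ℝ) * δ := by positivity
  calc ((N : ℝ) * δ) ^ 2 ≤ (av V S) ^ 2 := by
        exact pow_le_pow_left₀ hN hmean 2
    _ ≤ _ := hcs.trans hsq

/-! ### Ultrafilter pigeonhole -/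

theorem ultra_pigeon {X Γ : Type} [Finite Γ] (𝓕 : Ultrafilter X) (P : Γ → X → Prop)
    (h : ∀ᶠ x in 𝓕, ∃ γ, P γ x) : ∃ γ, ∀ᶠ x in 𝓕, P γ x := by
  by_contra hcon
  have h1 : ∀ γ, ∀ᶠ x in 𝓕, ¬ P γ x := by
    intro γ
    rw [Ultrafilter.eventually_not]
    intro h3
    exact hcon ⟨γ, h3⟩
  have h2 : ∀ᶠ x in 𝓕, ∀ γ, ¬ P γ x := Filter.eventually_all.mpr h1
  obtain ⟨x, hx1, hx2⟩ := (h.and h2).exists
  obtain ⟨γ, hγ⟩ := hx1
  exact hx2 γ hγ

theorem ultra_pigeon_set {X Γ : Type} (s : Finset Γ) (𝓕 : Ultrafilter X) (P : Γ → X → Prop)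
    (h : ∀ᶠ x in 𝓕, ∃ γ ∈ s, P γ x) : ∃ γ ∈ s, ∀ᶠ x in 𝓕, P γ x := by
  have h' : ∀ᶠ x in 𝓕, ∃ γ : s, P γ x := by
    filter_upwards [h] with x hx
    obtain ⟨γ, hγ, hp⟩ := hx
    exact ⟨⟨γ, hγ⟩, hp⟩
  obtain ⟨γ, hγ⟩ := ultra_pigeon (Γ := s) 𝓕 (fun γ x => P γ x) h'
  exact ⟨γ, γ.2, hγ⟩

/-! ### Iterated ultrafilter on lists -/

/-- The `r`-fold iterated power of the ultrafilter `u`, as an ultrafilter on lists. -/
noncomputable def F (u : Ultrafilter ℕ) : ℕ → Ultrafilter (List ℕ)
  | 0 => pure []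
  | r + 1 => u.bind (fun k => (F u r).map (List.cons k))

theorem ev_zero (u : Ultrafilter ℕ) (P : List ℕ → Prop) : (∀ᶠ κ : List ℕ in F u 0, P κ) ↔ P [] := by
  unfold F
  rw [Ultrafilter.coe_pure, Filter.eventually_pure]

theorem ev_bind {X Y : Type} (f : Ultrafilter X) (m : X → Ultrafilter Y) (P : Y → Prop) :
    (∀ᶠ y in f.bind m, P y) ↔ ∀ᶠ x in f, ∀ᶠ y in m x, P y := by
  rfl

theorem ev_succ (u : Ultrafilter ℕ) (r : ℕ) (P : List ℕ → Prop) :
    (∀ᶠ κ : List ℕ in F u (r + 1), P κ) ↔ ∀ᶠ k in u, ∀ᶠ κ : List ℕ in F u r, P (k :: κ) := by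
  rw [F, ev_bind]
  simp only [Ultrafilter.coe_map, Filter.eventually_map]

theorem ev_add (u : Ultrafilter ℕ) (r s : ℕ) (P : List ℕ → Prop) :
    (∀ᶠ κ : List ℕ in F u (r + s), P κ) ↔ ∀ᶠ p : List ℕ in F u r, ∀ᶠ q : List ℕ in F u s, P (p ++ q) := by
  induction r generalizing P with
  | zero => rw [Nat.zero_add, ev_zero]; rfl
  | succ r ih =>
    rw [Nat.add_right_comm, ev_succ, ev_succ]
    simp only [ih]
    rfl

theorem ev_one (u : Ultrafilter ℕ) (P : List ℕ → Prop) :
    (∀ᶠ κ : List ℕ in F u 1, P κ) ↔ ∀ᶠ k in u, P [k] := by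
  rw [show (1 : ℕ) = 0 + 1 from rfl, ev_succ]
  simp only [ev_zero]

theorem ev_length (u : Ultrafilter ℕ) (r : ℕ) : ∀ᶠ κ : List ℕ in F u r, κ.length = r := by
  induction r with
  | zero => rw [ev_zero]; rfl
  | succ r ih =>
    rw [ev_succ]
    refine Filter.Eventually.of_forall fun k => ?_
    filter_upwards [ih] with κ hκ
    simp [hκ]

theorem ev_incr (u : Ultrafilter ℕ) (hu : ∀ m : ℕ, ∀ᶠ k in u, m ≤ k) (r : ℕ) :
    ∀ m : ℕ, ∀ᶠ κ : List ℕ in F u r, κ.Pairwise (· < ·) ∧ ∀ k ∈ κ, m ≤ k := by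
  induction r with
  | zero => intro m; rw [ev_zero]; simp
  | succ r ih =>
    intro m
    rw [ev_succ]
    filter_upwards [hu m] with k hk
    filter_upwards [ih (k + 1)] with κ hκ
    refine ⟨List.pairwise_cons.mpr ⟨fun a ha => ?_, hκ.1⟩, fun j hj => ?_⟩
    · exact hκ.2 a ha
    · rcases List.mem_cons.mp hj with rfl | hj
      · exact hk
      · have := hκ.2 j hj
        omega

/-- Splitting at position `d`. -/
theorem ev_split (u : Ultrafilter ℕ) (n d : ℕ) (hd : d < n) (P : List ℕ → Prop) :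
    (∀ᶠ κ : List ℕ in F u n, P κ) ↔
      ∀ᶠ p : List ℕ in F u d, ∀ᶠ l in u, ∀ᶠ q : List ℕ in F u (n - 1 - d), P (p ++ l :: q) := by
  have : n = d + ((n - 1 - d) + 1) := by omega
  conv_lhs => rw [this]
  rw [ev_add]
  simp only [ev_succ]

/-- Dropping leading coordinates. -/
theorem ev_drop (u : Ultrafilter ℕ) (m d : ℕ) (hd : d ≤ m) (P : List ℕ → Prop)
    (h : ∀ᶠ κ : List ℕ in F u d, P κ) : ∀ᶠ κ : List ℕ in F u m, P (κ.drop (m - d)) := by
  have : m = (m - d) + d := by omega
  have h2 : ∀ᶠ κ : List ℕ in F u ((m - d) + d), P (κ.drop (m - d)) := by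
    rw [ev_add]
    filter_upwards [ev_length u (m - d)] with p hp
    filter_upwards [h] with q hq
    rw [List.drop_left' hp]
    exact hq
  rwa [← this] at h2

/-! ### Greedy sequences -/

theorem greedy_seq {β : Type} (Inv : List β → Prop) (G : ℕ → β → Prop) (h0 : Inv [])
    (hstep : ∀ m T, Inv T → ∃ x, G m x ∧ Inv (T ++ [x])) :
    ∃ x : ℕ → β, (∀ m, G m (x m)) ∧ ∀ M, Inv ((List.range M).map x) := by
  obtain ⟨x0, _⟩ := hstep 0 [] h0
  have : Nonempty β := ⟨x0⟩
  choose! nx hG hI using hstep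
  let st : ℕ → List β := fun m => Nat.rec [] (fun m T => T ++ [nx m T]) m
  have st0 : st 0 = [] := rfl
  have sts : ∀ m, st (m + 1) = st m ++ [nx m (st m)] := fun m => rfl
  have hst : ∀ m, Inv (st m) := by
    intro m
    induction m with
    | zero => exact h0
    | succ m ih => rw [sts]; exact hI m _ ih
  refine ⟨fun m => nx m (st m), fun m => hG m _ (hst m), fun M => ?_⟩
  have : (List.range M).map (fun m => nx m (st m)) = st M := by
    induction M with
    | zero => rfl
    | succ M ih => rw [List.range_succ, List.map_append, ih, sts]; rfl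
  rw [this]
  exact hst M

/-- A strictly increasing list with entries below `M` is a sublist of `List.range M`. -/
theorem incr_sublist_range {J : List ℕ} (hJ : J.Pairwise (· < ·)) {M : ℕ} (hM : ∀ j ∈ J, j < M) :
    J.Sublist (List.range M) := by
  refine List.sublist_of_subperm_of_pairwise (r := (· < ·)) ?_ hJ List.pairwise_lt_range
  refine List.subperm_of_subset ?_ ?_
  · exact hJ.imp (fun h => h.ne)
  · intro j hj
    exact List.mem_range.mpr (hM j hj)

theorem sublist_concat_cases {β : Type} {l T : List β} {x : β} (h : l.Sublist (T ++ [x])) :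
    l.Sublist T ∨ ∃ l', l = l' ++ [x] ∧ l'.Sublist T := by
  rw [List.sublist_append_iff] at h
  obtain ⟨l₁, l₂, rfl, h1, h2⟩ := h
  rcases List.sublist_singleton.mp h2 with rfl | rfl
  · left; simpa using h1
  · right; exact ⟨l₁, rfl, h1⟩

/-- Ramsey selection along an ultrafilter. -/
theorem ramsey_select (u : Ultrafilter ℕ) (hu : ∀ m : ℕ, ∀ᶠ k in u, m ≤ k) (n : ℕ)
    (P : List ℕ → Prop) (hP : ∀ᶠ κ : List ℕ in F u n, P κ) :
    ∃ t : ℕ → ℕ, (∀ m, m ≤ t m) ∧
      ∀ s : List ℕ, s.Pairwise (· < ·) → s.length = n → P (s.map t) := by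
  have key : ∃ t : ℕ → ℕ, (∀ m, m ≤ t m) ∧ ∀ M, ∀ p : List ℕ,
      p.Sublist ((List.range M).map t) → p.length ≤ n →
        ∀ᶠ q : List ℕ in F u (n - p.length), P (p ++ q) := by
    refine greedy_seq
      (Inv := fun T : List ℕ => ∀ p : List ℕ, p.Sublist T → p.length ≤ n →
        ∀ᶠ q : List ℕ in F u (n - p.length), P (p ++ q))
      (G := fun m k => m ≤ k) ?_ ?_
    · intro p hp _
      rw [List.sublist_nil.mp hp]
      simpa using hP
    · intro m T hT
      have h1 : ∀ p ∈ {p : List ℕ | p ∈ T.sublists}, ∀ᶠ k in u, p.length < n →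
          ∀ᶠ q : List ℕ in F u (n - (p ++ [k]).length), P ((p ++ [k]) ++ q) := by
        intro p hp
        by_cases hpn : p.length < n
        · have h2 := hT p (List.mem_sublists.mp hp) hpn.le
          have e : n - p.length = (n - (p.length + 1)) + 1 := by omega
          rw [e, ev_succ] at h2
          filter_upwards [h2] with k hk _
          simpa using hk
        · exact Filter.Eventually.of_forall fun k hk => absurd hk hpn
      have hfin : {p : List ℕ | p ∈ T.sublists}.Finite := List.finite_toSet _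
      have h3 := (Filter.eventually_all_finite hfin).mpr h1
      obtain ⟨k, hk1, hk2⟩ := (h3.and (hu m)).exists
      refine ⟨k, hk2, fun p hp hpn => ?_⟩
      rcases sublist_concat_cases hp with hp | ⟨p', rfl, hp'⟩
      · exact hT p hp hpn
      · rw [List.length_append, List.length_singleton] at hpn
        exact hk1 p' (List.mem_sublists.mpr hp') (by omega)
  obtain ⟨t, ht1, ht2⟩ := key
  refine ⟨t, ht1, fun s hs hlen => ?_⟩
  have hM : ∃ M, ∀ j ∈ s, j < M := by
    refine ⟨s.sum + 1, fun j hj => ?_⟩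
    have := List.le_sum_of_mem hj
    omega
  obtain ⟨M, hM⟩ := hM
  have hsub := (incr_sublist_range hs hM).map t
  have := ht2 M (s.map t) hsub (by simp [hlen])
  rw [List.length_map, hlen, Nat.sub_self, ev_zero, List.append_nil] at this
  exact this

end SynProd
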