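import Pool.Agent.SynProd.Init

/-!
The combinatorial theorem: rotating the letters and collapsing each of them to a sequence of
single points.
-/

namespace SynProd

open Finset Filter

/-- Iterated average of `g` over products of letters: the letter `o` is used at the first index,
the letter `o + 1` at the second index, and so on. -/
noncomputable def W {α : Type} (U : ℕ → ℕ → Finset α) (val : α → ℕ) (g : ℕ → ℝ) :
    List ℕ → ℕ → ℕ → ℝ
  | [], _, x => g x
  | i :: s, o, x => av (U o i) (fun b => W U val g s (o + 1) (x * val b))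

section

variable {α : Type} (val : α → ℕ)

theorem W_append (U : ℕ → ℕ → Finset α) (g : ℕ → ℝ) (p q : List ℕ) (o x : ℕ) :
    W U val g (p ++ q) o x = W U val (fun z => W U val g q (o + p.length) z) p o x := by
  induction p generalizing o x with
  | nil => simp [W]
  | cons i p ih =>
    simp only [List.cons_append, W, List.length_cons]
    refine av_congr fun b _ => ?_
    rw [ih, show o + 1 + p.length = o + (p.length + 1) by omega]

theorem W_av (U : ℕ → ℕ → Finset α) (V : Finset α) (h : α → ℕ → ℝ) (p : List ℕ) (o x : ℕ) :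
    W U val (fun z => av V (fun a => h a z)) p o x = av V (fun a => W U val (h a) p o x) := by
  induction p generalizing o x with
  | nil => simp [W]
  | cons i p ih =>
    simp only [W]
    rw [av_comm V]
    exact av_congr fun b _ => ih _ _

theorem W_nonneg (U : ℕ → ℕ → Finset α) (g : ℕ → ℝ) (hg : ∀ x, 0 ≤ g x) (p : List ℕ) (o x : ℕ) :
    0 ≤ W U val g p o x := by
  induction p generalizing o x with
  | nil => exact hg x
  | cons i p ih =>
    simp only [W]
    exact av_nonneg fun b _ => ih _ _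

theorem W_le_one (U : ℕ → ℕ → Finset α) (hU : ∀ o i, (U o i).Nonempty) (g : ℕ → ℝ)
    (hg : ∀ x, g x ≤ 1) (p : List ℕ) (o x : ℕ) : W U val g p o x ≤ 1 := by
  induction p generalizing o x with
  | nil => exact hg x
  | cons i p ih =>
    simp only [W]
    exact av_le (hU _ _) fun b _ => ih _ _

theorem W_path (U U' : ℕ → ℕ → Finset α) (K : ℕ → ℕ → ℕ) (g : ℕ → ℝ) (s : List ℕ) (o x : ℕ)
    (h : ∀ p < s.length, ∀ i, U' (o + p) i = U (o + p) (K (o + p) i)) :
    W U' val g s o x = W U val g (path K o s) o x := by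
  induction s generalizing o x with
  | nil => rfl
  | cons i s ih =>
    simp only [W, path]
    have h0 := h 0 (by simp) i
    rw [Nat.add_zero] at h0
    rw [h0]
    refine av_congr fun b _ => ih _ _ fun p hp j => ?_
    have := h (p + 1) (by simpa using hp) j
    rwa [show o + (p + 1) = o + 1 + p by omega] at this

theorem W_shift (U U' : ℕ → ℕ → Finset α) (c : ℕ) (g : ℕ → ℝ) (h : ∀ o, U' o = U (o + c))
    (s : List ℕ) (o x : ℕ) : W U' val g s o x = W U val g s (o + c) x := by
  induction s generalizing o x with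
  | nil => rfl
  | cons i s ih =>
    simp only [W, h]
    refine av_congr fun b _ => ?_
    rw [ih, show o + 1 + c = o + c + 1 by omega]

theorem W_congr_fun (U : ℕ → ℕ → Finset α) (g h : ℕ → ℝ) (hgh : ∀ x, g x = h x)
    (s : List ℕ) (o x : ℕ) : W U val g s o x = W U val h s o x := by
  have : g = h := funext hgh
  rw [this]

end

theorem list_split (κ : List ℕ) (d : ℕ) (hd : d < κ.length) :
    κ = κ.take d ++ κ.getD d 0 :: κ.drop (d + 1) := by
  conv_lhs => rw [← List.take_append_drop d κ]
  rw [List.drop_eq_getElem_cons hd, List.getD_eq_getElem _ _ hd]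

/-- The state of the construction after `j` letters have been collapsed. -/
structure St {α : Type} (u : Ultrafilter ℕ) (val : α → ℕ) (g : ℕ → ℝ) (n j : ℕ) (c : ℝ)
    (U : ℕ → ℕ → Finset α) : Prop where
  per : ∀ o, U (o + n) = U o
  ne : ∀ o i, (U o i).Nonempty
  big : ∀ o i, ∀ b ∈ U o i, i < val b
  sing : ∀ o, n - j ≤ o → o < n → ∀ i, ∃ a, U o i = {a}
  ev : ∀ᶠ κ : List ℕ in F u n, c ≤ ∑ d ∈ range n, W U val g κ (n - d) 1

theorem sum_shift (n : ℕ) (G : ℕ → ℝ) (hG : G (n + 1) = G 1) :
    ∑ d ∈ range n, G (n - d + 1) = ∑ d ∈ range n, G (n - d) := by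
  rcases n with _ | m
  · simp
  · rw [Finset.sum_range_succ', Finset.sum_range_succ]
    congr 1
    · refine Finset.sum_congr rfl fun d hd => ?_
      rw [Finset.mem_range] at hd
      rw [show m + 1 - (d + 1) + 1 = m + 1 - d by omega]
    · rw [show m + 1 - 0 + 1 = m + 1 + 1 by omega, hG, show m + 1 - m = 1 by omega]

theorem round {α : Type} (u : Ultrafilter ℕ) (hu : ∀ m : ℕ, ∀ᶠ k in u, m ≤ k) (val : α → ℕ)
    (g : ℕ → ℝ) (hg0 : ∀ x, 0 ≤ g x) (hg1 : ∀ x, g x ≤ 1) (n j : ℕ) (hn : 1 ≤ n)
    {c c'' : ℝ} (hc'' : 0 ≤ c'') (hc : c'' < c) (U : ℕ → ℕ → Finset α)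
    (hU : St u val g n j c U) (hj : j < n) : ∃ U', St u val g n (j + 1) c'' U' := by
  set f : ℕ → List ℕ → α → List ℕ → ℝ := fun d lo a up =>
    W U val (fun z => W U val g up 1 (z * val a)) lo (n - d) 1 with hf
  have hper1 : ∀ (s : List ℕ) (x : ℕ), W U val g s (n + 1) x = W U val g s 1 x := by
    intro s x
    have := W_shift val U U n g (fun o => (hU.per o).symm) s 1 x
    rw [this, Nat.add_comm 1 n]
  have hsplit : ∀ κ : List ℕ, κ.length = n → ∀ d ∈ range n,
      W U val g κ (n - d) 1 =
        av (U 0 (κ.getD d 0)) (fun a => f d (κ.take d) a (κ.drop (d + 1))) := by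
    intro κ hκ d hd
    rw [Finset.mem_range] at hd
    have hsp := list_split κ d (by omega)
    have hlen : (κ.take d).length = d := by
      rw [List.length_take]
      omega
    conv_lhs => rw [hsp]
    rw [W_append, hlen, show n - d + d = n by omega]
    simp only [hf]
    rw [← W_av]
    refine W_congr_fun val U _ _ (fun z => ?_) _ _ _
    simp only [W]
    have : U n = U 0 := by
      have := hU.per 0
      rwa [Nat.zero_add] at this
    rw [this]
    refine av_congr fun b _ => ?_
    rw [hper1]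
  obtain ⟨y, K, a, hy, hK, ha, hmain⟩ := lemmaD u hu (U 0) (hU.ne 0) n hn f
    (fun d lo a up => W_nonneg val U _ (fun z => W_nonneg val U g hg0 _ _ _) _ _ _)
    (fun d lo a up => W_le_one val U hU.ne _ (fun z => W_le_one val U hU.ne g hg1 _ _ _) _ _ _)
    hc'' hc (by
      filter_upwards [hU.ev, ev_length u n] with κ hκ hlen
      rw [← Finset.sum_congr rfl (hsplit κ hlen)]
      exact hκ)
  set V' : ℕ → ℕ → Finset α := fun o i => if o % n = 0 then {a i} else U o (K (o % n) i) with hV'
  have hV'per : ∀ o, V' (o + n) = V' o := by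
    intro o
    funext i
    simp only [hV', Nat.add_mod_right, hU.per]
  have hper1' : ∀ (s : List ℕ) (x : ℕ), W V' val g s (n + 1) x = W V' val g s 1 x := by
    intro s x
    have := W_shift val V' V' n g (fun o => (hV'per o).symm) s 1 x
    rw [this, Nat.add_comm 1 n]
  have hVn : ∀ i, V' n i = {a i} := by
    intro i
    simp [hV']
  have hV'o : ∀ o, 1 ≤ o → o < n → ∀ i, V' o i = U o (K o i) := by
    intro o h1 h2 i
    have h3 : o % n = o := Nat.mod_eq_of_lt h2
    simp only [hV', h3]
    rw [if_neg (by omega)]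
  have hall : ∀ κ : List ℕ, κ.Pairwise (· < ·) → κ.length = n →
      c'' ≤ ∑ d ∈ range n, W V' val g κ (n - d) 1 := by
    intro κ hκ hlen
    refine hy.trans (Finset.sum_le_sum fun d hd => ?_)
    rw [Finset.mem_range] at hd
    have hsp := list_split κ d (by omega)
    have hlen1 : (κ.take d).length = d := by
      rw [List.length_take]
      omega
    have hlen2 : (κ.drop (d + 1)).length = n - 1 - d := by
      rw [List.length_drop]
      omega
    have h1 := hmain d hd (κ.take d) (κ.getD d 0) (κ.drop (d + 1)) hlen1 hlen2 (by rwa [← hsp])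
    refine h1.trans (le_of_eq ?_)
    conv_rhs => rw [hsp]
    rw [W_append, hlen1, show n - d + d = n by omega]
    simp only [hf]
    rw [← W_path val U V' K _ (κ.take d) (n - d) 1 (by
      intro p hp i
      exact hV'o _ (by omega) (by omega) i)]
    refine W_congr_fun val V' _ _ (fun z => ?_) _ _ _
    simp only [W]
    rw [hVn, av_singleton, hper1']
    rw [W_path val U V' K g (κ.drop (d + 1)) 1 _ (by
      intro p hp i
      exact hV'o _ (by omega) (by omega) i)]
  refine ⟨fun o => V' (o + 1), ?_, ?_, ?_, ?_, ?_⟩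
  · intro o
    show V' (o + n + 1) = V' (o + 1)
    rw [show o + n + 1 = (o + 1) + n by omega, hV'per]
  · intro o i
    show (V' (o + 1) i).Nonempty
    simp only [hV']
    split_ifs
    · exact Finset.singleton_nonempty _
    · exact hU.ne _ _
  · intro o i b hb
    change b ∈ V' (o + 1) i at hb
    simp only [hV'] at hb
    split_ifs at hb
    · rw [Finset.mem_singleton] at hb
      subst hb
      exact lt_of_le_of_lt (hK 0 i) (hU.big _ _ _ (ha i))
    · exact lt_of_le_of_lt (hK _ i) (hU.big _ _ _ hb)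
  · intro o h1 h2 i
    show ∃ a, V' (o + 1) i = {a}
    rcases Nat.lt_or_ge (o + 1) n with h3 | h3
    · rw [hV'o (o + 1) (by omega) h3]
      exact hU.sing (o + 1) (by omega) h3 _
    · have : o + 1 = n := by omega
      rw [this]
      exact ⟨a i, hVn i⟩
  · filter_upwards [ev_incr u hu n 0, ev_length u n] with κ hκ hlen
    have h1 : ∀ d, W (fun o => V' (o + 1)) val g κ (n - d) 1 = W V' val g κ (n - d + 1) 1 := by
      intro d
      exact W_shift val V' (fun o => V' (o + 1)) 1 g (fun o => rfl) κ (n - d) 1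
    simp only [h1]
    rw [sum_shift n (fun o => W V' val g κ o 1) (hper1' κ 1)]
    exact hall κ hκ.1 hlen

theorem all_rounds {α : Type} (u : Ultrafilter ℕ) (hu : ∀ m : ℕ, ∀ᶠ k in u, m ≤ k)
    (val : α → ℕ) (g : ℕ → ℝ) (hg0 : ∀ x, 0 ≤ g x) (hg1 : ∀ x, g x ≤ 1) (n : ℕ) (hn : 1 ≤ n)
    {c : ℝ} (hc : 1 < c) (U : ℕ → ℕ → Finset α)
    (hU : St u val g n 0 c U) : ∀ j ≤ n, ∃ c' U', 1 < c' ∧ St u val g n j c' U' := by
  intro j
  induction j with
  | zero => intro _; exact ⟨c, U, hc, hU⟩
  | succ j ih =>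
    intro hj
    obtain ⟨c', U', hc', hU'⟩ := ih (by omega)
    obtain ⟨U'', hU''⟩ := round u hu val g hg0 hg1 n j hn (c := c') (c'' := (1 + c') / 2)
      (by linarith) (by linarith) U' hU' (by omega)
    exact ⟨_, U'', by linarith, hU''⟩

/-- Products along increasing indices. -/
def Pm (X : ℕ → ℕ → ℕ) : List ℕ → ℕ → ℕ → ℕ
  | [], _, x => x
  | i :: s, o, x => Pm X s (o + 1) (x * X o i)

theorem Pm_append (X : ℕ → ℕ → ℕ) (p q : List ℕ) (o x : ℕ) :
    Pm X (p ++ q) o x = Pm X q (o + p.length) (Pm X p o x) := by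
  induction p generalizing o x with
  | nil => simp [Pm]
  | cons i p ih =>
    simp only [List.cons_append, Pm, List.length_cons]
    rw [ih, show o + 1 + p.length = o + (p.length + 1) by omega]

theorem Pm_mul (X : ℕ → ℕ → ℕ) (s : List ℕ) (o x y : ℕ) :
    Pm X s o (x * y) = x * Pm X s o y := by
  induction s generalizing o y with
  | nil => rfl
  | cons i s ih =>
    simp only [Pm]
    rw [Nat.mul_assoc, ih]

theorem Pm_one (X : ℕ → ℕ → ℕ) (s : List ℕ) (o x : ℕ) :
    Pm X s o x = x * Pm X s o 1 := by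
  rw [← Pm_mul, Nat.mul_one]

theorem Pm_per (X : ℕ → ℕ → ℕ) (n : ℕ) (hX : ∀ o, X (o + n) = X o) (s : List ℕ) (o x : ℕ) :
    Pm X s (o + n) x = Pm X s o x := by
  induction s generalizing o x with
  | nil => rfl
  | cons i s ih =>
    simp only [Pm]
    rw [show o + n + 1 = (o + 1) + n by omega, ih, hX]

theorem Pm_ge (X : ℕ → ℕ → ℕ) (hX : ∀ o i, i < X o i) (s : List ℕ) (o x : ℕ) :
    x ≤ Pm X s o x := by
  induction s generalizing o x with
  | nil => exact le_rfl
  | cons i s ih =>
    simp only [Pm]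
    refine le_trans ?_ (ih _ _)
    exact Nat.le_mul_of_pos_right x (lt_of_le_of_lt (Nat.zero_le _) (hX o i))

theorem W_sing {α : Type} (U : ℕ → ℕ → Finset α) (val : α → ℕ) (g : ℕ → ℝ)
    (pt : ℕ → ℕ → α) (h : ∀ o i, U o i = {pt o i}) (s : List ℕ) (o x : ℕ) :
    W U val g s o x = g (Pm (fun o i => val (pt o i)) s o x) := by
  induction s generalizing o x with
  | nil => rfl
  | cons i s ih =>
    simp only [W, Pm]
    rw [h, av_singleton, ih]

open Classical in
theorem comb {α : Type} (u : Ultrafilter ℕ) (hu : ∀ m : ℕ, ∀ᶠ k in u, m ≤ k)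
    (val : α → ℕ) (A : Set ℕ) (n : ℕ) (hn : 1 ≤ n) {c : ℝ} (hc : 1 < c)
    (U : ℕ → ℕ → Finset α) (hU : St u val (fun x => if x ∈ A then (1 : ℝ) else 0) n 0 c U) :
    ∃ a b : ℕ → ℕ, (∀ τ, τ < a τ) ∧ (∀ τ, τ < b τ) ∧ ∀ τ τ', a τ * b τ' ∈ A := by
  set g : ℕ → ℝ := fun x => if x ∈ A then (1 : ℝ) else 0 with hg
  have hg0 : ∀ x, 0 ≤ g x := by
    intro x
    simp only [hg]
    split_ifs <;> norm_num
  have hg1 : ∀ x, g x ≤ 1 := by
    intro x
    simp only [hg]
    split_ifs <;> norm_num
  obtain ⟨c', U', hc', hU'⟩ := all_rounds u hu val g hg0 hg1 n hn hc U hU n le_rfl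
  have hperk : ∀ k o, U' (o + n * k) = U' o := by
    intro k
    induction k with
    | zero => intro o; simp
    | succ k ih =>
      intro o
      rw [Nat.mul_succ, ← Nat.add_assoc, hU'.per, ih]
  have hsing : ∀ o i, ∃ a, U' o i = {a} := by
    intro o i
    have h1 : U' o = U' (o % n) := by
      conv_lhs => rw [← Nat.mod_add_div o n]
      exact hperk _ _
    rw [h1]
    exact hU'.sing (o % n) (by omega) (Nat.mod_lt _ hn) i
  choose pt hpt using hsing
  set X : ℕ → ℕ → ℕ := fun o i => val (pt o i) with hX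
  have hXbig : ∀ o i, i < X o i := by
    intro o i
    refine hU'.big o i (pt o i) ?_
    rw [hpt]
    exact Finset.mem_singleton_self _
  have hXper : ∀ o, X (o + n) = X o := by
    intro o
    funext i
    simp only [hX]
    have h1 := hpt (o + n) i
    rw [hU'.per, hpt] at h1
    rw [Finset.singleton_injective h1]
  -- two rotations
  have hev : ∀ᶠ κ : List ℕ in F u n, ∃ p ∈ range n ×ˢ range n, p.1 < p.2 ∧
      Pm X κ (n - p.1) 1 ∈ A ∧ Pm X κ (n - p.2) 1 ∈ A := by
    filter_upwards [hU'.ev] with κ hκ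
    have h1 : ∑ d ∈ range n, W U' val g κ (n - d) 1 =
        (((range n).filter (fun d => Pm X κ (n - d) 1 ∈ A)).card : ℝ) := by
      rw [Finset.card_filter, Nat.cast_sum]
      refine Finset.sum_congr rfl fun d _ => ?_
      rw [W_sing U' val g pt hpt]
      simp only [hg]
      push_cast
      rfl
    rw [h1] at hκ
    have h2 : 1 < ((range n).filter (fun d => Pm X κ (n - d) 1 ∈ A)).card := by
      have : (1 : ℝ) < (((range n).filter (fun d => Pm X κ (n - d) 1 ∈ A)).card : ℝ) :=
        lt_of_lt_of_le hc' hκ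
      exact_mod_cast this
    rw [Finset.one_lt_card] at h2
    obtain ⟨d, hd, d', hd', hne⟩ := h2
    rw [Finset.mem_filter] at hd hd'
    rcases lt_or_gt_of_ne hne with h | h
    · exact ⟨(d, d'), Finset.mk_mem_product hd.1 hd'.1, h, hd.2, hd'.2⟩
    · exact ⟨(d', d), Finset.mk_mem_product hd'.1 hd.1, h, hd'.2, hd.2⟩
  obtain ⟨⟨d, d'⟩, hp, hev2⟩ := ultra_pigeon_set _ (F u n) _ hev
  rw [Finset.mem_product, Finset.mem_range, Finset.mem_range] at hp
  obtain ⟨hd, hd'⟩ := hp
  simp only at hd hd' hev2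
  have hdd : d < d' := by
    obtain ⟨κ, hκ⟩ := hev2.exists
    exact hκ.1
  have hσ : n - d = (n - d') + (d' - d) := by omega
  set σ := n - d' with hσdef
  set r := d' - d with hr
  have hr1 : 1 ≤ r := by omega
  have hrn : r < n := by omega
  have hev3 : ∀ᶠ κ : List ℕ in F u n, Pm X κ σ 1 ∈ A ∧ Pm X κ (σ + r) 1 ∈ A := by
    filter_upwards [hev2] with κ hκ
    rw [hσ] at hκ
    exact ⟨hκ.2.2, hκ.2.1⟩
  obtain ⟨t, ht, hs⟩ := ramsey_select u hu n _ hev3
  refine ⟨fun τ => Pm X ((List.range' (n * τ) r).map t) σ 1,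
    fun τ => Pm X ((List.range' (n * τ + r) (n - r)).map t) (σ + r) 1, ?_, ?_, ?_⟩
  · intro τ
    show τ < Pm X ((List.range' (n * τ) r).map t) σ 1
    obtain ⟨r', hr'⟩ : ∃ r', r = r' + 1 := ⟨r - 1, by omega⟩
    rw [hr', List.range'_succ, List.map_cons, Pm, Nat.one_mul]
    refine lt_of_lt_of_le ?_ (Pm_ge X hXbig _ _ _)
    refine lt_of_le_of_lt ?_ (hXbig _ _)
    refine le_trans ?_ (ht _)
    have : 1 * τ ≤ n * τ := Nat.mul_le_mul_right τ hn
    omega
  · intro τ
    show τ < Pm X ((List.range' (n * τ + r) (n - r)).map t) (σ + r) 1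
    obtain ⟨r', hr'⟩ : ∃ r', n - r = r' + 1 := ⟨n - r - 1, by omega⟩
    rw [hr', List.range'_succ, List.map_cons, Pm, Nat.one_mul]
    refine lt_of_lt_of_le ?_ (Pm_ge X hXbig _ _ _)
    refine lt_of_le_of_lt ?_ (hXbig _ _)
    refine le_trans ?_ (ht _)
    have : 1 * τ ≤ n * τ := Nat.mul_le_mul_right τ hn
    omega
  · intro τ τ'
    show Pm X ((List.range' (n * τ) r).map t) σ 1 *
      Pm X ((List.range' (n * τ' + r) (n - r)).map t) (σ + r) 1 ∈ A
    rcases Nat.lt_or_ge τ' τ with h | h
    · have hpw : (List.range' (n * τ' + r) (n - r) ++ List.range' (n * τ) r).Pairwise (· < ·) := by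
        rw [List.pairwise_append]
        refine ⟨List.pairwise_lt_range', List.pairwise_lt_range', fun z hz w hw => ?_⟩
        rw [List.mem_range'_1] at hz hw
        have h3 : n * (τ' + 1) ≤ n * τ := Nat.mul_le_mul_left n h
        have h5 : n * (τ' + 1) = n * τ' + n := by ring
        omega
      have h1 := (hs _ hpw (by simp; omega)).2
      rw [List.map_append, Pm_append, Pm_one] at h1
      simp only [List.length_map, List.length_range'] at h1
      rw [show σ + r + (n - r) = σ + n by omega, Pm_per X n hXper, Nat.mul_comm] at h1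
      exact h1
    · have hpw : (List.range' (n * τ) r ++ List.range' (n * τ' + r) (n - r)).Pairwise (· < ·) := by
        rw [List.pairwise_append]
        refine ⟨List.pairwise_lt_range', List.pairwise_lt_range', fun z hz w hw => ?_⟩
        rw [List.mem_range'_1] at hz hw
        have h3 : n * τ ≤ n * τ' := Nat.mul_le_mul_left n h
        omega
      have h1 := (hs _ hpw (by simp; omega)).1
      rw [List.map_append, Pm_append, Pm_one] at h1
      simp only [List.length_map, List.length_range'] at h1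
      exact h1

end SynProd
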