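import Pool.Agent.SynProd.Comb

/-!
The density step: a random integer of the form `1 + (k + 1) * ∏ m ^ e m` multiplies a bounded
integer `x` to a shift of `x`, up to a small error in distribution.
-/

namespace SynProd

open Finset Filter

/-- The integer with exponent list `es` (head is the exponent of the largest base). -/
def Phi : List ℕ → ℕ
  | [] => 1
  | e :: es => (es.length + 1) ^ e * Phi es

theorem Phi_pos (es : List ℕ) : 1 ≤ Phi es := by
  induction es with
  | nil => exact le_rfl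
  | cons e es ih =>
    simp only [Phi]
    exact Nat.one_le_iff_ne_zero.mpr (Nat.mul_ne_zero (pow_ne_zero _ (by omega)) (by omega))

/-- Exponent lists of length `M` with entries below `E`. -/
def box (E : ℕ) : ℕ → Finset (List ℕ)
  | 0 => {[]}
  | M + 1 => (range E ×ˢ box E M).image (fun p => p.1 :: p.2)

theorem cons_inj : Function.Injective (fun p : ℕ × List ℕ => p.1 :: p.2) := by
  rintro ⟨a, l⟩ ⟨b, m⟩ h
  simp only [List.cons.injEq] at h
  rw [h.1, h.2]

theorem box_length (E M : ℕ) : ∀ es ∈ box E M, es.length = M := by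
  induction M with
  | zero => intro es h; simp only [box, Finset.mem_singleton] at h; rw [h]; rfl
  | succ M ih =>
    intro es h
    simp only [box, Finset.mem_image, Finset.mem_product] at h
    obtain ⟨p, ⟨_, hp2⟩, rfl⟩ := h
    simp [ih _ hp2]

theorem box_nonempty (E M : ℕ) (hE : 0 < E) : (box E M).Nonempty := by
  induction M with
  | zero => exact Finset.singleton_nonempty _
  | succ M ih =>
    simp only [box]
    rw [Finset.image_nonempty, Finset.nonempty_product]
    exact ⟨⟨0, Finset.mem_range.mpr hE⟩, ih⟩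

theorem av_box_succ (E M : ℕ) (h : List ℕ → ℝ) :
    av (box E (M + 1)) h = av (range E) (fun e => av (box E M) (fun es => h (e :: es))) := by
  unfold av
  simp only [box]
  rw [Finset.sum_image (fun _ _ _ _ hab => cons_inj hab), Finset.card_image_of_injective _ cons_inj,
    Finset.card_product, Finset.sum_product, ← Finset.sum_div, Finset.card_range, div_div]
  push_cast
  rw [mul_comm]

theorem box_shift (E : ℕ) (hE : 0 < E) (h : ℕ → ℝ) (h0 : ∀ x, 0 ≤ h x) (h1 : ∀ x, h x ≤ 1)
    (M : ℕ) : ∀ x y : ℕ, 1 ≤ x → x ≤ M →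
      |av (box E M) (fun es => h (x * (y * Phi es))) - av (box E M) (fun es => h (y * Phi es))| ≤
        1 / E := by
  have hEr : (0 : ℝ) < E := by exact_mod_cast hE
  induction M with
  | zero => intro x y hx1 hx2; omega
  | succ M ih =>
    intro x y hx1 hx2
    rw [av_box_succ, av_box_succ]
    rcases Nat.lt_or_ge M x with hx | hx
    · have hxM : x = M + 1 := by omega
      set G : ℕ → ℝ := fun e => av (box E M) (fun es => h (y * ((M + 1) ^ e * Phi es))) with hG
      have e1 : ∀ e, av (box E M) (fun es => h (x * (y * Phi (e :: es)))) = G (e + 1) := by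
        intro e
        refine av_congr fun es hes => ?_
        simp only [Phi, box_length E M es hes, hxM]
        congr 1
        ring
      have e2 : ∀ e, av (box E M) (fun es => h (y * Phi (e :: es))) = G e := by
        intro e
        refine av_congr fun es hes => ?_
        simp only [Phi, box_length E M es hes]
      simp only [e1, e2]
      rw [← av_sub]
      have e3 : av (range E) (fun e => G (e + 1) - G e) = (G E - G 0) / E := by
        unfold av
        rw [Finset.sum_range_sub, Finset.card_range]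
      rw [e3, abs_div, abs_of_pos hEr]
      refine div_le_div_of_nonneg_right ?_ hEr.le
      have g0 : ∀ e, 0 ≤ G e := fun e => av_nonneg fun _ _ => h0 _
      have g1 : ∀ e, G e ≤ 1 := fun e => av_le (box_nonempty E M hE) fun _ _ => h1 _
      rw [abs_le]
      constructor
      · linarith [g0 E, g1 0]
      · linarith [g0 0, g1 E]
    · refine abs_av_sub_le ⟨0, Finset.mem_range.mpr hE⟩ fun e _ => ?_
      have e1 : av (box E M) (fun es => h (x * (y * Phi (e :: es)))) =
          av (box E M) (fun es => h (x * ((y * (M + 1) ^ e) * Phi es))) := by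
        refine av_congr fun es hes => ?_
        simp only [Phi, box_length E M es hes]
        congr 1
        ring
      have e2 : av (box E M) (fun es => h (y * Phi (e :: es))) =
          av (box E M) (fun es => h ((y * (M + 1) ^ e) * Phi es)) := by
        refine av_congr fun es hes => ?_
        simp only [Phi, box_length E M es hes]
        congr 1
        ring
      rw [e1, e2]
      exact ih x (y * (M + 1) ^ e) hx1 hx

/-- The number of bases used at level `k`. -/
def Mlev (E L : ℕ) : ℕ → ℕ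
  | 0 => L
  | k + 1 => Mlev E L k * (1 + (k + 1) * (box E (Mlev E L k)).sup Phi)

/-- The letter at level `k`. -/
def Ulev (E L : ℕ) (k : ℕ) : Finset (ℕ × List ℕ) := (box E (Mlev E L k)).image (Prod.mk k)

/-- The shift attached to a point. -/
def wt (b : ℕ × List ℕ) : ℕ := (b.1 + 1) * Phi b.2

theorem av_Ulev (E L k : ℕ) (h : ℕ × List ℕ → ℝ) :
    av (Ulev E L k) h = av (box E (Mlev E L k)) (fun es => h (k, es)) := by
  have hinj : Function.Injective (Prod.mk k : List ℕ → ℕ × List ℕ) := fun a b h => by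
    simpa using h
  unfold av Ulev
  rw [Finset.sum_image (fun _ _ _ _ hab => hinj hab), Finset.card_image_of_injective _ hinj]

theorem Ulev_nonempty (E L k : ℕ) (hE : 0 < E) : (Ulev E L k).Nonempty := by
  unfold Ulev
  rw [Finset.image_nonempty]
  exact box_nonempty _ _ hE

theorem Mlev_mono (E L : ℕ) : Monotone (Mlev E L) := by
  refine monotone_nat_of_le_succ fun k => ?_
  simp only [Mlev]
  exact Nat.le_mul_of_pos_right _ (by omega)

theorem Mlev_step (E L k x : ℕ) (hx : x ≤ Mlev E L k) (b : ℕ × List ℕ) (hb : b ∈ Ulev E L k) :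
    x * (1 + wt b) ≤ Mlev E L (k + 1) := by
  unfold Ulev at hb
  rw [Finset.mem_image] at hb
  obtain ⟨es, hes, rfl⟩ := hb
  simp only [Mlev, wt]
  refine Nat.mul_le_mul hx (Nat.add_le_add_left (Nat.mul_le_mul_left _ ?_) _)
  exact Finset.le_sup (f := Phi) hes

theorem lev_shift (E L : ℕ) (hE : 0 < E) (k x : ℕ) (hx1 : 1 ≤ x) (hx : x ≤ Mlev E L k)
    (h : ℕ → ℝ) (h0 : ∀ x, 0 ≤ h x) (h1 : ∀ x, h x ≤ 1) :
    |av (Ulev E L k) (fun b => h (x * (1 + wt b))) - av (Ulev E L k) (fun b => h (x + wt b))| ≤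
      1 / E := by
  rw [av_Ulev, av_Ulev]
  have := box_shift E hE (fun z => h (x + z)) (fun _ => h0 _) (fun _ => h1 _) (Mlev E L k)
    x (k + 1) hx1 hx
  have e1 : av (box E (Mlev E L k)) (fun es => h (x * (1 + wt (k, es)))) =
      av (box E (Mlev E L k)) (fun es => h (x + x * ((k + 1) * Phi es))) := by
    refine av_congr fun es _ => ?_
    simp only [wt]
    congr 1
    ring
  rw [e1]
  exact this

/-- The additive model. -/
noncomputable def Vadd (E L : ℕ) (g : ℕ → ℝ) : List ℕ → ℕ → ℝ
  | [], x => g x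
  | k :: κ, x => av (Ulev E L k) (fun b => Vadd E L g κ (x + wt b))

theorem Vadd_nonneg (E L : ℕ) (g : ℕ → ℝ) (hg : ∀ x, 0 ≤ g x) (κ : List ℕ) (x : ℕ) :
    0 ≤ Vadd E L g κ x := by
  induction κ generalizing x with
  | nil => exact hg x
  | cons k κ ih => exact av_nonneg fun b _ => ih _

theorem Vadd_le_one (E L : ℕ) (hE : 0 < E) (g : ℕ → ℝ) (hg : ∀ x, g x ≤ 1) (κ : List ℕ) (x : ℕ) :
    Vadd E L g κ x ≤ 1 := by
  induction κ generalizing x with
  | nil => exact hg x
  | cons k κ ih => exact av_le (Ulev_nonempty E L k hE) fun b _ => ih _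

/-- The value of a letter point. -/
def vl (b : ℕ × List ℕ) : ℕ := 1 + wt b

theorem W_Vadd (E L : ℕ) (hE : 0 < E) (g : ℕ → ℝ) (hg0 : ∀ x, 0 ≤ g x) (hg1 : ∀ x, g x ≤ 1)
    (κ : List ℕ) (hκ : κ.Pairwise (· < ·)) (o x : ℕ) (hx1 : 1 ≤ x)
    (hx : ∀ k ∈ κ, x ≤ Mlev E L k) :
    |W (fun _ => Ulev E L) vl g κ o x - Vadd E L g κ x| ≤ κ.length / E := by
  induction κ generalizing o x with
  | nil => simp [W, Vadd]
  | cons k κ ih =>
    rw [List.pairwise_cons] at hκ
    have hE' : (0 : ℝ) < E := by exact_mod_cast hE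
    have h1 : |av (Ulev E L k) (fun b => W (fun _ => Ulev E L) vl g κ (o + 1) (x * vl b)) -
        av (Ulev E L k) (fun b => Vadd E L g κ (x * (1 + wt b)))| ≤ κ.length / E := by
      refine abs_av_sub_le (Ulev_nonempty E L k hE) fun b hb => ?_
      refine ih hκ.2 (o + 1) (x * vl b) ?_ ?_
      · exact Nat.one_le_iff_ne_zero.mpr (Nat.mul_ne_zero (by omega) (by unfold vl; omega))
      · intro k' hk'
        have h2 := Mlev_step E L k x (hx k (by simp)) b hb
        exact h2.trans (Mlev_mono E L (hκ.1 k' hk'))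
    have h2 := lev_shift E L hE k x hx1 (hx k (by simp)) (Vadd E L g κ)
      (Vadd_nonneg E L g hg0 κ) (Vadd_le_one E L hE g hg1 κ)
    simp only [W, Vadd, List.length_cons]
    have h3 : ((κ.length + 1 : ℕ) : ℝ) / E = κ.length / E + 1 / E := by
      push_cast
      ring
    rw [h3]
    calc _ ≤ _ := abs_sub_le _ (av (Ulev E L k) (fun b => Vadd E L g κ (x * (1 + wt b)))) _
      _ ≤ _ := add_le_add h1 h2

theorem Vadd_sum (E L : ℕ) (hE : 0 < E) (g : ℕ → ℝ)
    (hg : ∀ z, 1 ≤ ∑ j ∈ Finset.Icc 1 L, g (j + z)) (κ : List ℕ) (z : ℕ) :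
    1 ≤ ∑ j ∈ Finset.Icc 1 L, Vadd E L g κ (j + z) := by
  induction κ generalizing z with
  | nil => exact hg z
  | cons k κ ih =>
    simp only [Vadd]
    rw [← av_sum]
    refine le_av (Ulev_nonempty E L k hE) fun b _ => ?_
    have := ih (z + wt b)
    simpa only [Nat.add_assoc] using this

theorem W_mul {α : Type} (U : ℕ → ℕ → Finset α) (val : α → ℕ) (g : ℕ → ℝ) (j : ℕ) (s : List ℕ)
    (o x : ℕ) : W U val g s o (j * x) = W U val (fun z => g (j * z)) s o x := by
  induction s generalizing o x with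
  | nil => rfl
  | cons i s ih =>
    simp only [W]
    refine av_congr fun b _ => ?_
    rw [Nat.mul_assoc, ih]

theorem W_const_letter {α : Type} (U : ℕ → Finset α) (val : α → ℕ) (g : ℕ → ℝ) (s : List ℕ)
    (o x : ℕ) : W (fun _ => U) val g s o x = W (fun _ => U) val g s 0 x := by
  have := W_shift val (fun _ => U) (fun _ => U) o g (fun _ => rfl) s 0 x
  rw [this, Nat.zero_add]

open Classical in
theorem syndetic_product (S : Set ℕ) (L : ℕ) (hL : 1 ≤ L)
    (hS : ∀ N : ℕ, ∃ m ∈ S, N < m ∧ m ≤ N + L) :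
    ∃ (j : ℕ) (a b : ℕ → ℕ), 1 ≤ j ∧ (∀ τ, τ < a τ) ∧ (∀ τ, τ < b τ) ∧
      ∀ τ τ', (j * a τ) * b τ' ∈ S := by
  obtain ⟨u, hu⟩ : ∃ u : Ultrafilter ℕ, ∀ m : ℕ, ∀ᶠ k in u, m ≤ k := by
    refine ⟨Filter.hyperfilter ℕ, fun m => ?_⟩
    exact (Nat.hyperfilter_le_atTop) (Filter.eventually_ge_atTop m)
  set n := L + 1 with hn
  set E := (L + 1) ^ 3 + 1 with hEdef
  have hE : 0 < E := by omega
  have hEr : (0 : ℝ) < E := by exact_mod_cast hE
  have hLr : (1 : ℝ) ≤ L := by exact_mod_cast hL
  have hLpos : (0 : ℝ) < L := by linarith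
  have hnr : (n : ℝ) = L + 1 := by rw [hn]; push_cast; ring
  have hErr : (E : ℝ) = (L + 1) ^ 3 + 1 := by rw [hEdef]; push_cast; ring
  set gS : ℕ → ℝ := fun x => if x ∈ S then (1 : ℝ) else 0 with hgS
  have hg0 : ∀ x, 0 ≤ gS x := by
    intro x
    simp only [hgS]
    split_ifs <;> norm_num
  have hg1 : ∀ x, gS x ≤ 1 := by
    intro x
    simp only [hgS]
    split_ifs <;> norm_num
  have hgsum : ∀ z, 1 ≤ ∑ j ∈ Finset.Icc 1 L, gS (j + z) := by
    intro z
    obtain ⟨m, hm, hm1, hm2⟩ := hS z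
    have h1 : m - z ∈ Finset.Icc 1 L := by
      rw [Finset.mem_Icc]
      omega
    have h2 := Finset.single_le_sum (f := fun j => gS (j + z)) (fun j _ => hg0 _) h1
    have h3 : gS (m - z + z) = 1 := by
      rw [Nat.sub_add_cancel hm1.le]
      simp only [hgS]
      rw [if_pos hm]
    simp only [h3] at h2
    exact h2
  set U : ℕ → ℕ → Finset (ℕ × List ℕ) := fun _ => Ulev E L with hU
  -- the density estimate
  have hdens : ∀ κ : List ℕ, κ.Pairwise (· < ·) → κ.length = n →
      ∃ j ∈ Finset.Icc 1 L, (1 - L * n / E) / L ≤ W U vl gS κ 0 j := by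
    intro κ hκ hlen
    have h1 : ∀ j ∈ Finset.Icc 1 L, Vadd E L gS κ (j + 0) - n / E ≤ W U vl gS κ 0 j := by
      intro j hj
      rw [Finset.mem_Icc] at hj
      have h2 := W_Vadd E L hE gS hg0 hg1 κ hκ 0 j hj.1 (fun k _ =>
        hj.2.trans (Mlev_mono E L (Nat.zero_le k)))
      rw [hlen] at h2
      have h3 := (abs_le.mp h2).1
      rw [Nat.add_zero]
      simp only [hU]
      linarith
    have h2 : 1 - L * n / E ≤ ∑ j ∈ Finset.Icc 1 L, W U vl gS κ 0 j := by
      calc (1 : ℝ) - L * n / E ≤ (∑ j ∈ Finset.Icc 1 L, Vadd E L gS κ (j + 0)) - L * (n / E) := by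
            have := Vadd_sum E L hE gS hgsum κ 0
            rw [← mul_div_assoc]
            linarith
        _ = ∑ j ∈ Finset.Icc 1 L, (Vadd E L gS κ (j + 0) - n / E) := by
            rw [Finset.sum_sub_distrib]
            simp
        _ ≤ _ := Finset.sum_le_sum h1
    have h3 : ∑ _j ∈ Finset.Icc 1 L, ((1 : ℝ) - L * n / E) / L ≤
        ∑ j ∈ Finset.Icc 1 L, W U vl gS κ 0 j := by
      refine le_trans (le_of_eq ?_) h2
      rw [Finset.sum_const, Nat.card_Icc, nsmul_eq_mul]
      simp only [Nat.add_sub_cancel]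
      field_simp
    exact Finset.exists_le_of_sum_le ⟨1, Finset.mem_Icc.mpr ⟨le_rfl, hL⟩⟩ h3
  have hev : ∀ᶠ κ : List ℕ in F u n, ∃ j ∈ Finset.Icc 1 L,
      (1 - L * n / E) / L ≤ W U vl gS κ 0 j := by
    filter_upwards [ev_incr u hu n 0, ev_length u n] with κ hκ hlen
    exact hdens κ hκ.1 hlen
  obtain ⟨j, hj, hjev⟩ := ultra_pigeon_set _ (F u n) _ hev
  rw [Finset.mem_Icc] at hj
  set A : Set ℕ := {x | j * x ∈ S} with hA
  have hc : 1 < (n : ℝ) * ((1 - L * n / E) / L) := by
    rw [← mul_div_assoc, lt_div_iff₀ hLpos, one_mul]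
    have h1 : (n : ℝ) * (L * n / E) < 1 := by
      rw [← mul_div_assoc, div_lt_one hEr, hErr, hnr]
      nlinarith [sq_nonneg ((L : ℝ) + 1)]
    rw [hnr] at h1 ⊢
    nlinarith
  have hSt : St u vl (fun x => if x ∈ A then (1 : ℝ) else 0) n 0
      ((n : ℝ) * ((1 - L * n / E) / L)) U := by
    refine ⟨fun o => rfl, fun o i => Ulev_nonempty E L i hE, ?_, ?_, ?_⟩
    · intro o i b hb
      simp only [hU, Ulev, Finset.mem_image] at hb
      obtain ⟨es, _, rfl⟩ := hb
      simp only [vl, wt]
      have := Phi_pos es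
      nlinarith
    · intro o h1 h2
      omega
    · filter_upwards [hjev] with κ hκ
      have h1 : ∀ d ∈ range n, (1 - L * n / E) / L ≤
          W U vl (fun x => if x ∈ A then (1 : ℝ) else 0) κ (n - d) 1 := by
        intro d _
        refine hκ.trans (le_of_eq ?_)
        rw [hU, W_const_letter (Ulev E L) vl _ κ (n - d) 1]
        have := W_mul (fun _ => Ulev E L) vl gS j κ 0 1
        rw [Nat.mul_one] at this
        rw [this]
        rfl
      calc (n : ℝ) * (((1 : ℝ) - L * n / E) / L) = ∑ _d ∈ range n, ((1 : ℝ) - L * n / E) / L := by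
            rw [Finset.sum_const, Finset.card_range, nsmul_eq_mul]
        _ ≤ _ := Finset.sum_le_sum h1
  obtain ⟨a, b, ha, hb, hab⟩ := comb u hu vl A n (by omega) hc U hSt
  refine ⟨j, a, b, hj.1, ha, hb, fun τ τ' => ?_⟩
  have := hab τ τ'
  simp only [hA] at this
  have h2 : j * (a τ * b τ') ∈ S := this
  rwa [← Nat.mul_assoc] at h2

end SynProd
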