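import Pool.Agent.SynProd.LemmaD

/-!
Extraction of the selected sequence.
-/

namespace SynProd

open Finset Filter

/-- The list of levels used along increasing indices. -/
def path (K : ℕ → ℕ → ℕ) : ℕ → List ℕ → List ℕ
  | _, [] => []
  | o, i :: s => K o i :: path K (o + 1) s

/-- The list of stages used along increasing indices. -/
def idx (n : ℕ) : ℕ → List ℕ → List ℕ
  | _, [] => []
  | o, i :: s => (n * i + o) :: idx n (o + 1) s

theorem path_length (K : ℕ → ℕ → ℕ) (o : ℕ) (s : List ℕ) : (path K o s).length = s.length := by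
  induction s generalizing o with
  | nil => rfl
  | cons i s ih => simp [path, ih]

theorem idx_types {α : Type} (n : ℕ) (x : ℕ → Tok α) (hx : ∀ j, (x j).1 = j % n) (o : ℕ)
    (s : List ℕ) (h : o + s.length ≤ n) :
    ((idx n o s).map x).map Prod.fst = List.range' o s.length := by
  induction s generalizing o with
  | nil => rfl
  | cons i s ih =>
    simp only [List.length_cons] at h
    have hlt : o < n := by omega
    have h2 := ih (o + 1) (by omega)
    simp only [idx, List.map_cons, List.length_cons, List.range'_succ]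
    rw [h2, hx, Nat.mul_add_mod, Nat.mod_eq_of_lt hlt]

theorem idx_levels {α : Type} (n : ℕ) (x : ℕ → Tok α) (o : ℕ) (s : List ℕ) :
    ((idx n o s).map x).map (fun z => z.2.1) = path (fun o s => (x (n * s + o)).2.1) o s := by
  induction s generalizing o with
  | nil => rfl
  | cons i s ih =>
    simp only [idx, path, List.map_cons]
    rw [ih (o + 1)]

theorem idx_bounds (n : ℕ) (o : ℕ) (s : List ℕ) (h : o + s.length ≤ n) :
    ∀ z ∈ idx n o s, ∃ j ∈ s, n * j ≤ z ∧ z < n * j + n := by
  induction s generalizing o with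
  | nil => intro z hz; simp [idx] at hz
  | cons i s ih =>
    simp only [List.length_cons] at h
    intro z hz
    simp only [idx, List.mem_cons] at hz
    rcases hz with rfl | hz
    · exact ⟨i, by simp, by omega, by omega⟩
    · obtain ⟨j, hj, h1, h2⟩ := ih (o + 1) (by omega) z hz
      exact ⟨j, by simp [hj], h1, h2⟩

theorem idx_pairwise (n : ℕ) (o : ℕ) (s : List ℕ) (h : o + s.length ≤ n)
    (hs : s.Pairwise (· < ·)) : (idx n o s).Pairwise (· < ·) := by
  induction s generalizing o with
  | nil => simp [idx]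
  | cons i s ih =>
    simp only [List.length_cons] at h
    rw [List.pairwise_cons] at hs
    simp only [idx, List.pairwise_cons]
    refine ⟨fun z hz => ?_, ih (o + 1) (by omega) hs.2⟩
    obtain ⟨j, hj, h1, h2⟩ := idx_bounds n (o + 1) s (by omega) z hz
    have h3 := hs.1 j hj
    have h4 : n * (i + 1) ≤ n * j := Nat.mul_le_mul_left n h3
    have h5 : n * (i + 1) = n * i + n := by ring
    omega

theorem extract {α : Type} (u : Ultrafilter ℕ) (hu : ∀ m : ℕ, ∀ᶠ k in u, m ≤ k)
    (V : ℕ → Finset α) (hV : ∀ l, (V l).Nonempty) (n : ℕ) (hn : 1 ≤ n)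
    (f : ℕ → List ℕ → α → List ℕ → ℝ) (y : ℕ → ℝ)
    (h0 : I1 u V n (fun d low a => ∀ᶠ r : List ℕ in F u (n - 1 - d), y d ≤ f d low a r) []) :
    ∃ (K : ℕ → ℕ → ℕ) (a : ℕ → α), (∀ o s, s ≤ K o s) ∧ (∀ s, a s ∈ V (K 0 s)) ∧
      ∀ d < n, ∀ (lo : List ℕ) (i : ℕ) (up : List ℕ), lo.length = d → up.length = n - 1 - d →
        (lo ++ i :: up).Pairwise (· < ·) →
        y d ≤ f d (path K (n - d) lo) (a i) (path K 1 up) := by
  set E : ℕ → List ℕ → α → Prop :=
    fun d low a => ∀ᶠ r : List ℕ in F u (n - 1 - d), y d ≤ f d low a r with hE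
  have key : ∃ x : ℕ → Tok α, (∀ m, (x m).1 = m % n ∧ m ≤ (x m).2.1 ∧
      (m % n = 0 → (x m).2.2 ∈ V (x m).2.1)) ∧
      ∀ M, I1 u V n E ((List.range M).map x) ∧ I2 u n f y ((List.range M).map x) := by
    refine greedy_seq (β := Tok α) (fun T => I1 u V n E T ∧ I2 u n f y T)
      (fun m x => x.1 = m % n ∧ m ≤ x.2.1 ∧ (m % n = 0 → x.2.2 ∈ V x.2.1)) ⟨h0, ?_⟩ ?_
    · intro d hd t ht l₁ x l₂ hsub
      exfalso
      have := List.sublist_nil.mp hsub
      simp at this
    · rintro m T ⟨hT1, hT2⟩
      obtain ⟨pt, _⟩ := hV 0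
      by_cases hm : m % n = 0
      · obtain ⟨δ, hδ, h⟩ := hT1
        obtain ⟨κ, hκ, hκlen⟩ := (h.and (ev_length u (n - 1))).exists
        obtain ⟨l, hl, hml⟩ := (hκ.and (hu m)).exists
        obtain ⟨a, ha, haD⟩ := exists_of_pr_pos (lt_of_lt_of_le hδ hl)
        refine ⟨(0, l, a), ⟨hm.symm, hml, fun _ => ha⟩, ?_, ?_⟩
        · exact I1_point u V n E T ⟨δ, hδ, h⟩ l a
        · exact I2_point u n f y T hT2 l a κ hκlen haD
      · have ho : 1 ≤ m % n := Nat.one_le_iff_ne_zero.mpr hm
        have hon : m % n < n := Nat.mod_lt _ hn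
        obtain ⟨k, hk1, hk2, hk3⟩ := ((I1_level u V hV n E T hT1 (m % n) ho hon).and
          ((I2_level u n f y T hT2 (m % n) ho).and (hu m))).exists
        exact ⟨(m % n, k, pt), ⟨rfl, hk3, fun h => absurd h hm⟩, hk1 pt, hk2 pt⟩
  obtain ⟨x, hx, hInv⟩ := key
  refine ⟨fun o s => (x (n * s + o)).2.1, fun s => (x (n * s)).2.2, ?_, ?_, ?_⟩
  · intro o s
    refine le_trans ?_ (hx (n * s + o)).2.1
    have : 1 * s ≤ n * s := Nat.mul_le_mul_right s hn
    omega
  · intro s
    exact (hx (n * s)).2.2 (Nat.mul_mod_right n s)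
  · intro d hd lo i up hlo hup hpw
    rw [List.pairwise_append, List.pairwise_cons] at hpw
    obtain ⟨p1, ⟨p2, p3⟩, p4⟩ := hpw
    have b1 : n - d + lo.length ≤ n := by omega
    have b2 : 1 + up.length ≤ n := by omega
    set J : List ℕ := idx n (n - d) lo ++ (n * i) :: idx n 1 up with hJ
    have hJpw : J.Pairwise (· < ·) := by
      rw [hJ, List.pairwise_append, List.pairwise_cons]
      refine ⟨idx_pairwise n _ lo b1 p1, ⟨fun z hz => ?_, idx_pairwise n _ up b2 p3⟩,
        fun z hz w hw => ?_⟩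
      · obtain ⟨j, hj, h1, h2⟩ := idx_bounds n 1 up b2 z hz
        have h3 : n * (i + 1) ≤ n * j := Nat.mul_le_mul_left n (p2 j hj)
        have h5 : n * (i + 1) = n * i + n := by ring
        omega
      · obtain ⟨j, hj, h1, h2⟩ := idx_bounds n (n - d) lo b1 z hz
        rcases List.mem_cons.mp hw with rfl | hw
        · have h3 : n * (j + 1) ≤ n * i := Nat.mul_le_mul_left n (p4 j hj i (by simp))
          have h5 : n * (j + 1) = n * j + n := by ring
          omega
        · obtain ⟨j', hj', h1', h2'⟩ := idx_bounds n 1 up b2 w hw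
          have h3 : n * (j + 1) ≤ n * j' := Nat.mul_le_mul_left n (p4 j hj j' (by simp [hj']))
          have h5 : n * (j + 1) = n * j + n := by ring
          omega
    have hM : ∀ j ∈ J, j < J.sum + 1 := fun j hj => by
      have := List.le_sum_of_mem hj
      omega
    have hsub := (incr_sublist_range hJpw hM).map x
    rw [hJ, List.map_append, List.map_cons] at hsub
    have h1 := (hInv (J.sum + 1)).2 d hd (n - 1 - d) le_rfl _ _ _ hsub
      (by rw [idx_types n x (fun j => (hx j).1) _ _ b1, hlo])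
      (by rw [(hx (n * i)).1, Nat.mul_mod_right])
      (by rw [idx_types n x (fun j => (hx j).1) _ _ b2, hup])
    rw [Nat.sub_self, ev_zero, List.append_nil, idx_levels, idx_levels] at h1
    exact h1

end SynProd
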