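import Pool.Agent.SynProd.Extract

/-!
Choice of the thresholds and the one-letter selection theorem.
-/

namespace SynProd

open Finset Filter

theorem pr_eq {α : Type} (V : Finset α) (D : α → Prop) [DecidablePred D] :
    pr V D = av V (fun a => if D a then 1 else 0) := by
  unfold pr
  refine av_congr fun a _ => ?_
  by_cases h : D a <;> simp [h]

/-- Pigeonhole for one level. -/
theorem pigeon_level {α : Type} {V : Finset α} (hV : V.Nonempty) (n N : ℕ) (hN : 0 < N)
    (Z : ℕ → α → ℕ) (hZ : ∀ d a, Z d a ≤ N) {c c'' : ℝ} (hc'' : 0 ≤ c'')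
    (hN2 : 2 * (n : ℝ) + 1 ≤ N * (c - c''))
    (h : N * c - 2 * n ≤ ∑ d ∈ range n, av V (fun a => (Z d a : ℝ))) :
    ∃ γ : Fin n → Fin (N + 1), N * c'' ≤ ∑ d, ((γ d : ℕ) : ℝ) ∧
      1 / (n * N * (Fintype.card (Fin n → Fin (N + 1))) + 1) ≤
        pr V (fun a => ∀ d : Fin n, Z d a = γ d) := by
  classical
  set η : ℝ := 1 / (n * N * (Fintype.card (Fin n → Fin (N + 1))) + 1) with hη
  by_contra hcon
  push Not at hcon
  have hηpos : 0 < η := by positivity
  have hηlt : n * N * (Fintype.card (Fin n → Fin (N + 1))) * η < 1 := by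
    rw [hη, mul_one_div, div_lt_one (by positivity)]
    linarith
  let good : Finset (Fin n → Fin (N + 1)) :=
    Finset.univ.filter (fun γ => N * c'' ≤ ∑ d, ((γ d : ℕ) : ℝ))
  have hpt : ∀ a ∈ V, (∑ d ∈ range n, (Z d a : ℝ)) ≤ N * c'' + (n * N : ℝ) *
      ∑ γ ∈ good, (if ∀ d : Fin n, Z d a = γ d then (1 : ℝ) else 0) := by
    intro a _
    have hsum0 : 0 ≤ ∑ γ ∈ good, (if ∀ d : Fin n, Z d a = γ d then (1 : ℝ) else 0) := by
      refine Finset.sum_nonneg fun γ _ => ?_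
      split_ifs <;> norm_num
    by_cases hX : N * c'' ≤ ∑ d ∈ range n, (Z d a : ℝ)
    · have hle : (∑ d ∈ range n, (Z d a : ℝ)) ≤ n * N := by
        calc (∑ d ∈ range n, (Z d a : ℝ)) ≤ ∑ d ∈ range n, (N : ℝ) := by
              refine Finset.sum_le_sum fun d _ => ?_
              exact_mod_cast hZ d a
          _ = n * N := by simp
      let γ0 : Fin n → Fin (N + 1) := fun d => ⟨Z d a, Nat.lt_succ_of_le (hZ d a)⟩
      have hγ0 : γ0 ∈ good := by
        simp only [good, Finset.mem_filter, Finset.mem_univ, true_and, γ0]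
        rwa [Finset.sum_range] at hX
      have h1 : (1 : ℝ) ≤ ∑ γ ∈ good, (if ∀ d : Fin n, Z d a = γ d then (1 : ℝ) else 0) := by
        have h2 := Finset.single_le_sum
          (f := fun γ : Fin n → Fin (N + 1) => if ∀ d : Fin n, Z d a = γ d then (1 : ℝ) else 0)
          (fun γ _ => by
            show (0 : ℝ) ≤ if ∀ d : Fin n, Z d a = γ d then (1 : ℝ) else 0
            split_ifs <;> norm_num) hγ0
        have h3 : (if ∀ d : Fin n, Z d a = γ0 d then (1 : ℝ) else 0) = 1 := by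
          rw [if_pos]
          intro d
          rfl
        calc (1 : ℝ) = _ := h3.symm
          _ ≤ _ := h2
      have h4 : (0 : ℝ) ≤ n * N := by positivity
      have h5 : (0 : ℝ) ≤ N * c'' := by positivity
      nlinarith
    · push Not at hX
      have h4 : (0 : ℝ) ≤ n * N := by positivity
      nlinarith [mul_nonneg h4 hsum0]
  have h1 : ∑ d ∈ range n, av V (fun a => (Z d a : ℝ)) ≤ N * c'' + (n * N : ℝ) *
      ∑ γ ∈ good, pr V (fun a => ∀ d : Fin n, Z d a = γ d) := by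
    rw [← av_sum]
    refine (av_mono hpt).trans ?_
    rw [av_add, av_const hV, av_mul, av_sum]
    refine le_of_eq ?_
    congr 2
    refine Finset.sum_congr rfl fun γ _ => ?_
    rw [pr_eq]
  have h2 : ∑ γ ∈ good, pr V (fun a => ∀ d : Fin n, Z d a = γ d) ≤
      (Fintype.card (Fin n → Fin (N + 1))) * η := by
    calc ∑ γ ∈ good, pr V (fun a => ∀ d : Fin n, Z d a = γ d) ≤ ∑ γ ∈ good, η := by
          refine Finset.sum_le_sum fun γ hγ => ?_
          exact (hcon γ (Finset.mem_filter.mp hγ).2).le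
      _ = (good.card : ℝ) * η := by simp
      _ ≤ (Fintype.card (Fin n → Fin (N + 1))) * η := by
          refine mul_le_mul_of_nonneg_right ?_ hηpos.le
          exact_mod_cast Finset.card_le_univ good
  have h4 : (0 : ℝ) ≤ n * N := by positivity
  have h5 := mul_le_mul_of_nonneg_left h2 h4
  have h6 : (n : ℝ) * N * ((Fintype.card (Fin n → Fin (N + 1))) * η) =
      n * N * (Fintype.card (Fin n → Fin (N + 1))) * η := by ring
  rw [h6] at h5
  nlinarith

theorem thresholds {α : Type} (u : Ultrafilter ℕ) (V : ℕ → Finset α)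
    (hV : ∀ l, (V l).Nonempty) (n : ℕ)
    (f : ℕ → List ℕ → α → List ℕ → ℝ) (hf0 : ∀ d lo a up, 0 ≤ f d lo a up)
    (hf1 : ∀ d lo a up, f d lo a up ≤ 1) {c c'' : ℝ} (hc'' : 0 ≤ c'') (hc : c'' < c)
    (H : ∀ᶠ κ : List ℕ in F u n, c ≤ ∑ d ∈ range n,
      av (V (κ.getD d 0)) (fun a => f d (κ.take d) a (κ.drop (d + 1)))) :
    ∃ y : ℕ → ℝ, c'' ≤ ∑ d ∈ range n, y d ∧
      I1 u V n (fun d low a => ∀ᶠ r : List ℕ in F u (n - 1 - d), y d ≤ f d low a r) [] := by
  have hcc : 0 < c - c'' := by linarith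
  obtain ⟨N, hN⟩ := exists_nat_gt ((2 * (n : ℝ) + 1) / (c - c''))
  have hN2 : 2 * (n : ℝ) + 1 ≤ N * (c - c'') := by
    rw [div_lt_iff₀ hcc] at hN
    exact hN.le
  have hNpos : 0 < N := by
    rcases Nat.eq_zero_or_pos N with h | h
    · subst h
      have : (0 : ℝ) ≤ n := Nat.cast_nonneg n
      norm_num at hN2
      linarith
    · exact h
  have hNr : (0 : ℝ) < N := by exact_mod_cast hNpos
  have hfl : ∀ v : ℝ, v ≤ 1 → ⌊(N : ℝ) * v⌋₊ ∈ range (N + 1) := by
    intro v hv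
    rw [Finset.mem_range, Nat.lt_succ_iff]
    refine Nat.floor_le_of_le ?_
    nlinarith
  -- grid values of the inner functions
  have hZex : ∀ d low a, ∃ i ∈ range (N + 1),
      ∀ᶠ r : List ℕ in F u (n - 1 - d), ⌊(N : ℝ) * f d low a r⌋₊ = i := by
    intro d low a
    refine ultra_pigeon_set (range (N + 1)) (F u (n - 1 - d))
      (fun i r => ⌊(N : ℝ) * f d low a r⌋₊ = i) ?_
    exact Filter.Eventually.of_forall fun r => ⟨_, hfl _ (hf1 _ _ _ _), rfl⟩
  choose Z hZ1 hZ2 using hZex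
  -- grid values of the averages
  set Val : ℕ → List ℕ → ℝ := fun d κ =>
    av (V (κ.getD d 0)) (fun a => f d (κ.take d) a (κ.drop (d + 1))) with hVal
  have hVal0 : ∀ d κ, 0 ≤ Val d κ := fun d κ => av_nonneg fun a _ => hf0 _ _ _ _
  have hVal1 : ∀ d κ, Val d κ ≤ 1 := fun d κ => av_le (hV _) fun a _ => hf1 _ _ _ _
  have hLex : ∀ d, ∃ i ∈ range (N + 1), ∀ᶠ κ : List ℕ in F u n, ⌊(N : ℝ) * Val d κ⌋₊ = i := by
    intro d
    refine ultra_pigeon_set (range (N + 1)) (F u n)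
      (fun i κ => ⌊(N : ℝ) * Val d κ⌋₊ = i) ?_
    exact Filter.Eventually.of_forall fun κ => ⟨_, hfl _ (hVal1 _ _), rfl⟩
  choose lam _ hlam2 using hLex
  -- Step A
  have hA : (N : ℝ) * c ≤ (∑ d ∈ range n, (lam d : ℝ)) + n := by
    have h1 : ∀ᶠ κ : List ℕ in F u n, ∀ d ∈ range n, ⌊(N : ℝ) * Val d κ⌋₊ = lam d := by
      rw [Filter.eventually_all_finset]
      intro d _
      exact hlam2 d
    obtain ⟨κ, hκ1, hκ2⟩ := (H.and h1).exists
    calc (N : ℝ) * c ≤ N * ∑ d ∈ range n, Val d κ := by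
          exact mul_le_mul_of_nonneg_left hκ1 hNr.le
      _ = ∑ d ∈ range n, N * Val d κ := by rw [Finset.mul_sum]
      _ ≤ ∑ d ∈ range n, ((lam d : ℝ) + 1) := by
          refine Finset.sum_le_sum fun d hd => ?_
          rw [← hκ2 d hd]
          exact (Nat.lt_floor_add_one _).le
      _ = _ := by rw [Finset.sum_add_distrib]; simp
  -- Step B
  have hB : ∀ d < n, ∀ᶠ low : List ℕ in F u d, ∀ᶠ l in u,
      (lam d : ℝ) ≤ av (V l) (fun a => (Z d low a : ℝ)) + 1 := by
    intro d hd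
    have h1 := hlam2 d
    rw [ev_split u n d hd] at h1
    filter_upwards [h1, ev_length u d] with low h2 hlow
    filter_upwards [h2] with l h3
    have h4 : ∀ᶠ r : List ℕ in F u (n - 1 - d), ∀ a ∈ V l,
        ⌊(N : ℝ) * f d low a r⌋₊ = Z d low a := by
      rw [Filter.eventually_all_finset]
      intro a _
      exact hZ2 d low a
    obtain ⟨r, hr1, hr2⟩ := (h3.and h4).exists
    have e1 : (low ++ l :: r).getD d 0 = l := by
      rw [← hlow]
      simp
    have e2 : (low ++ l :: r).take d = low := List.take_left' hlow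
    have e3 : (low ++ l :: r).drop (d + 1) = r := by
      have : (low ++ l :: r) = (low ++ [l]) ++ r := by simp
      rw [this, List.drop_left' (by simp [hlow])]
    have e4 : Val d (low ++ l :: r) = av (V l) (fun a => f d low a r) := by
      simp only [hVal, e1, e2, e3]
    calc (lam d : ℝ) ≤ N * Val d (low ++ l :: r) := by
          rw [← hr1]
          exact Nat.floor_le (mul_nonneg hNr.le (hVal0 _ _))
      _ = av (V l) (fun a => N * f d low a r) := by rw [e4, av_mul]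
      _ ≤ av (V l) (fun a => (Z d low a : ℝ) + 1) := by
          refine av_mono fun a ha => ?_
          rw [← hr2 a ha]
          exact (Nat.lt_floor_add_one _).le
      _ = _ := by rw [av_add, av_const (hV l)]
  -- Step C
  have hC : ∀ᶠ κ : List ℕ in F u (n - 1), ∀ᶠ l in u,
      N * c - 2 * n ≤ ∑ d ∈ range n, av (V l) (fun a => (Z d (κ.drop (n - 1 - d)) a : ℝ)) := by
    have h1 : ∀ᶠ κ : List ℕ in F u (n - 1), ∀ d ∈ range n, ∀ᶠ l in u,
        (lam d : ℝ) ≤ av (V l) (fun a => (Z d (κ.drop (n - 1 - d)) a : ℝ)) + 1 := by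
      rw [Filter.eventually_all_finset]
      intro d hd
      rw [Finset.mem_range] at hd
      exact ev_drop u (n - 1) d (by omega) _ (hB d hd)
    filter_upwards [h1] with κ h2
    rw [← Filter.eventually_all_finset] at h2
    filter_upwards [h2] with l h3
    have h4 : ∑ d ∈ range n, (lam d : ℝ) ≤ ∑ d ∈ range n,
        (av (V l) (fun a => (Z d (κ.drop (n - 1 - d)) a : ℝ)) + 1) :=
      Finset.sum_le_sum h3
    rw [Finset.sum_add_distrib] at h4
    simp only [Finset.sum_const, Finset.card_range, nsmul_eq_mul, mul_one] at h4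
    linarith
  -- Step D
  set η : ℝ := 1 / (n * N * (Fintype.card (Fin n → Fin (N + 1))) + 1) with hη
  have hηpos : 0 < η := by positivity
  have hD : ∀ᶠ κ : List ℕ in F u (n - 1), ∃ γ : Fin n → Fin (N + 1), ∀ᶠ l in u,
      N * c'' ≤ ∑ d, ((γ d : ℕ) : ℝ) ∧
      η ≤ pr (V l) (fun a => ∀ d : Fin n, Z d (κ.drop (n - 1 - d)) a = γ d) := by
    filter_upwards [hC] with κ hκ
    refine ultra_pigeon u (fun (γ : Fin n → Fin (N + 1)) l =>
      N * c'' ≤ ∑ d, ((γ d : ℕ) : ℝ) ∧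
      η ≤ pr (V l) (fun a => ∀ d : Fin n, Z d (κ.drop (n - 1 - d)) a = γ d)) ?_
    filter_upwards [hκ] with l hl
    exact pigeon_level (hV l) n N hNpos (fun d a => Z d (κ.drop (n - 1 - d)) a)
      (fun d a => Nat.lt_succ_iff.mp (Finset.mem_range.mp (hZ1 _ _ _))) hc'' hN2 hl
  obtain ⟨γ, hγ⟩ := ultra_pigeon (F u (n - 1)) _ hD
  obtain ⟨κ0, hκ0⟩ := hγ.exists
  obtain ⟨l0, hl0, _⟩ := hκ0.exists
  refine ⟨fun d => if h : d < n then ((γ ⟨d, h⟩ : ℕ) : ℝ) / N else 0, ?_, η, hηpos, ?_⟩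
  · rw [Finset.sum_range]
    simp only [Fin.is_lt, dite_true, Fin.eta]
    rw [← Finset.sum_div, le_div_iff₀ hNr]
    linarith
  · filter_upwards [hγ] with κ hκ
    filter_upwards [hκ] with l hl
    refine hl.2.trans (pr_mono fun a _ ha => ?_)
    intro d hd t ht p hp hty
    rw [List.sublist_nil.mp hp] at hty ⊢
    have ht0 : t = 0 := by
      have := congrArg List.length hty
      simpa using this.symm
    subst ht0
    simp only [List.map_nil, List.nil_append, Nat.add_zero]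
    have h1 := ha ⟨d, hd⟩
    simp only at h1
    filter_upwards [hZ2 d (κ.drop (n - 1 - d)) a] with r hr
    rw [dif_pos hd, div_le_iff₀ hNr, ← h1, ← hr]
    have := Nat.floor_le (mul_nonneg hNr.le (hf0 d (κ.drop (n - 1 - d)) a r))
    linarith

/-- One-letter selection. -/
theorem lemmaD {α : Type} (u : Ultrafilter ℕ) (hu : ∀ m : ℕ, ∀ᶠ k in u, m ≤ k)
    (V : ℕ → Finset α) (hV : ∀ l, (V l).Nonempty) (n : ℕ) (hn : 1 ≤ n)
    (f : ℕ → List ℕ → α → List ℕ → ℝ) (hf0 : ∀ d lo a up, 0 ≤ f d lo a up)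
    (hf1 : ∀ d lo a up, f d lo a up ≤ 1) {c c'' : ℝ} (hc'' : 0 ≤ c'') (hc : c'' < c)
    (H : ∀ᶠ κ : List ℕ in F u n, c ≤ ∑ d ∈ range n,
      av (V (κ.getD d 0)) (fun a => f d (κ.take d) a (κ.drop (d + 1)))) :
    ∃ (y : ℕ → ℝ) (K : ℕ → ℕ → ℕ) (a : ℕ → α), c'' ≤ ∑ d ∈ range n, y d ∧
      (∀ o s, s ≤ K o s) ∧ (∀ s, a s ∈ V (K 0 s)) ∧
      ∀ d < n, ∀ (lo : List ℕ) (i : ℕ) (up : List ℕ), lo.length = d → up.length = n - 1 - d →
        (lo ++ i :: up).Pairwise (· < ·) →
        y d ≤ f d (path K (n - d) lo) (a i) (path K 1 up) := by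
  obtain ⟨y, hy, h0⟩ := thresholds u V hV n f hf0 hf1 hc'' hc H
  obtain ⟨K, a, h1, h2, h3⟩ := extract u hu V hV n hn f y h0
  exact ⟨y, K, a, hy, h1, h2, h3⟩

end SynProd
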