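import Pool.Agent.SynProd.Basic

/-!
Selection of points: the main combinatorial lemma.
-/

namespace SynProd

open Finset Filter

theorem pairs {X H α : Type} (𝓕 : Ultrafilter X) (ℍ : Ultrafilter H) (V : H → Finset α)
    (hV : ∀ h, (V h).Nonempty) (Q : X → H → α → Prop) {δ : ℝ} (hδ : 0 < δ)
    (hQ : ∀ᶠ x in 𝓕, ∀ᶠ h in ℍ, δ ≤ pr (V h) (Q x h)) :
    ∃ δ' : ℝ, 0 < δ' ∧ ∀ᶠ x in 𝓕, ∀ᶠ x' in 𝓕, ∀ᶠ h in ℍ,
      δ' ≤ pr (V h) (fun a => Q x h a ∧ Q x' h a) := by
  refine ⟨δ ^ 2 / 4, by positivity, ?_⟩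
  by_contra hcon
  have hcon' : ∀ᶠ x in 𝓕, ∀ᶠ x' in 𝓕, ∀ᶠ h in ℍ,
      ¬ (δ ^ 2 / 4 ≤ pr (V h) (fun a => Q x h a ∧ Q x' h a)) := by
    simpa only [Ultrafilter.eventually_not] using hcon
  obtain ⟨f, hf1, hf2⟩ := exists_seq_of_forall_finset_exists
    (fun x => (∀ᶠ h in ℍ, δ ≤ pr (V h) (Q x h)) ∧
      (∀ᶠ x' in 𝓕, ∀ᶠ h in ℍ, ¬ (δ ^ 2 / 4 ≤ pr (V h) (fun a => Q x h a ∧ Q x' h a))))
    (fun x x' => ∀ᶠ h in ℍ, ¬ (δ ^ 2 / 4 ≤ pr (V h) (fun a => Q x h a ∧ Q x' h a)))
    (by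
      intro s hs
      have h1 : ∀ᶠ x' in 𝓕, ∀ x ∈ s, ∀ᶠ h in ℍ,
          ¬ (δ ^ 2 / 4 ≤ pr (V h) (fun a => Q x h a ∧ Q x' h a)) := by
        rw [Filter.eventually_all_finset]
        intro x hx
        exact (hs x hx).2
      obtain ⟨y, hy1, hy2, hy3⟩ := (hQ.and (hcon'.and h1)).exists
      exact ⟨y, ⟨hy1, hy2⟩, hy3⟩)
  obtain ⟨N, hN⟩ := exists_nat_gt (4 / δ ^ 2)
  have h1 : ∀ᶠ h in ℍ, ∀ i ∈ range N, δ ≤ pr (V h) (Q (f i) h) := by
    rw [Filter.eventually_all_finset]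
    intro i _
    exact (hf1 i).1
  have h2 : ∀ᶠ h in ℍ, ∀ j ∈ range N, ∀ i ∈ range j,
      ¬ (δ ^ 2 / 4 ≤ pr (V h) (fun a => Q (f i) h a ∧ Q (f j) h a)) := by
    rw [Filter.eventually_all_finset]
    intro j _
    rw [Filter.eventually_all_finset]
    intro i hi
    exact hf2 i j (Finset.mem_range.mp hi)
  obtain ⟨h, hh1, hh2⟩ := (h1.and h2).exists
  have hsm := second_moment (hV h) (fun i => Q (f i) h) N hδ.le
    (δ' := δ ^ 2 / 4) (by positivity)
    (fun i hi => hh1 i (Finset.mem_range.mpr hi))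
    (fun i j hij hj => (not_le.mp (hh2 j (Finset.mem_range.mpr hj) i
      (Finset.mem_range.mpr hij))).le)
  have hδ2 : 0 < δ ^ 2 := by positivity
  have hN' : 4 < N * δ ^ 2 := by
    rwa [div_lt_iff₀ hδ2] at hN
  have hNpos : (0 : ℝ) < N := by
    by_contra hneg
    push Not at hneg
    nlinarith
  nlinarith [mul_pos hNpos hδ2, mul_pos hNpos (mul_pos hNpos hδ2)]

/-- Tokens: a type, a level, and a point. -/
abbrev Tok (α : Type) : Type := ℕ × ℕ × α

section Greedy

variable {α : Type}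

/-- The set of points that are compatible with all the patterns of `T`. -/
def Dset (n : ℕ) (E : ℕ → List ℕ → α → Prop) (T : List (Tok α)) (κ : List ℕ) (a : α) : Prop :=
  ∀ d < n, ∀ t ≤ d, ∀ l : List (Tok α), l.Sublist T → l.map Prod.fst = List.range' (n - d) t →
    E d (l.map (fun x => x.2.1) ++ κ.drop (n - 1 - d + t)) a

theorem Dset_level (n : ℕ) (E : ℕ → List ℕ → α → Prop) (T : List (Tok α)) (o k : ℕ) (pt : α)
    (ho : 1 ≤ o) (q x' ρ : List ℕ) (hq : q.length = o - 1) (hx' : x'.length = o)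
    (a : α) (h1 : Dset n E T ((q ++ [k]) ++ ρ) a) (h2 : Dset n E T (x' ++ ρ) a) :
    Dset n E (T ++ [(o, k, pt)]) (x' ++ ρ) a := by
  intro d hd t ht l hl hty
  rcases sublist_concat_cases hl with hl | ⟨l', rfl, hl'⟩
  · exact h2 d hd t ht l hl hty
  · obtain _ | t := t
    · simp at hty
    · rw [List.range'_concat, List.map_append] at hty
      have hlen := congrArg List.length hty
      simp only [List.length_append, List.length_map, List.length_singleton,
        List.length_range', List.map_cons, List.map_nil] at hlen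
      obtain ⟨e1, e2⟩ := List.append_inj' hty (by simp)
      have e3 : o = n - d + t := by simpa using e2
      have h3 := h1 d hd t (by omega) l' hl' e1
      have e4 : n - 1 - d + t = o - 1 := by omega
      rw [e4, List.append_assoc, List.drop_left' hq] at h3
      have e5 : n - 1 - d + (t + 1) = o := by omega
      rw [e5, List.drop_left' hx']
      simpa using h3

theorem Dset_point (n : ℕ) (E : ℕ → List ℕ → α → Prop) (T : List (Tok α)) (k : ℕ) (pt : α)
    (κ : List ℕ) (a : α) (h : Dset n E T κ a) :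
    Dset n E (T ++ [(0, k, pt)]) κ a := by
  intro d hd t ht l hl hty
  rcases sublist_concat_cases hl with hl | ⟨l', rfl, hl'⟩
  · exact h d hd t ht l hl hty
  · exfalso
    have : (0 : ℕ) ∈ List.range' (n - d) t := by
      rw [← hty]
      simp
    rw [List.mem_range'_1] at this
    omega

/-- First invariant. -/
def I1 (u : Ultrafilter ℕ) (V : ℕ → Finset α) (n : ℕ) (E : ℕ → List ℕ → α → Prop)
    (T : List (Tok α)) : Prop :=
  ∃ δ : ℝ, 0 < δ ∧ ∀ᶠ κ : List ℕ in F u (n - 1), ∀ᶠ l in u, δ ≤ pr (V l) (Dset n E T κ)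

theorem I1_level (u : Ultrafilter ℕ) (V : ℕ → Finset α) (hV : ∀ l, (V l).Nonempty) (n : ℕ)
    (E : ℕ → List ℕ → α → Prop) (T : List (Tok α)) (h : I1 u V n E T) (o : ℕ) (ho : 1 ≤ o)
    (hon : o < n) : ∀ᶠ k in u, ∀ pt : α, I1 u V n E (T ++ [(o, k, pt)]) := by
  obtain ⟨δ, hδ, h⟩ := h
  have hm : n - 1 = o + (n - 1 - o) := by omega
  rw [hm, ev_add] at h
  let ℍ : Ultrafilter (List ℕ × ℕ) := (F u (n - 1 - o)).bind (fun ρ => u.map (fun l => (ρ, l)))
  have hℍ : ∀ P : List ℕ × ℕ → Prop, (∀ᶠ h in ℍ, P h) ↔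
      ∀ᶠ ρ : List ℕ in F u (n - 1 - o), ∀ᶠ l in u, P (ρ, l) := by
    intro P
    rw [ev_bind]
    simp only [Ultrafilter.coe_map, Filter.eventually_map]
  obtain ⟨δ', hδ', h'⟩ := pairs (F u o) ℍ (fun h => V h.2) (fun h => hV h.2)
    (fun x h => Dset n E T (x ++ h.1)) hδ (by simpa only [hℍ] using h)
  simp only [hℍ] at h'
  have ho' : o = (o - 1) + 1 := by omega
  have h2 : ∀ᶠ q : List ℕ in F u (o - 1), ∀ᶠ k in u,
      ∀ᶠ x' : List ℕ in F u o, ∀ᶠ ρ : List ℕ in F u (n - 1 - o), ∀ᶠ l in u,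
        δ' ≤ pr (V l) (fun a => Dset n E T ((q ++ [k]) ++ ρ) a ∧ Dset n E T (x' ++ ρ) a) := by
    have h3 : ∀ᶠ x : List ℕ in F u ((o - 1) + 1),
      ∀ᶠ x' : List ℕ in F u o, ∀ᶠ ρ : List ℕ in F u (n - 1 - o), ∀ᶠ l in u,
        δ' ≤ pr (V l) (fun a => Dset n E T (x ++ ρ) a ∧ Dset n E T (x' ++ ρ) a) := by
      rw [← ho']
      exact h'
    rw [ev_add] at h3
    simpa only [ev_one] using h3
  obtain ⟨q, hq, hqlen⟩ := (h2.and (ev_length u (o - 1))).exists
  filter_upwards [hq] with k hk pt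
  refine ⟨δ', hδ', ?_⟩
  rw [hm, ev_add]
  filter_upwards [hk, ev_length u o] with x' hx' hx'len
  filter_upwards [hx'] with ρ hρ
  filter_upwards [hρ] with l hl
  refine hl.trans (pr_mono fun a _ ha => ?_)
  exact Dset_level n E T o k pt ho q x' ρ hqlen hx'len a ha.1 ha.2

theorem I1_point (u : Ultrafilter ℕ) (V : ℕ → Finset α) (n : ℕ)
    (E : ℕ → List ℕ → α → Prop) (T : List (Tok α)) (h : I1 u V n E T) (k : ℕ) (pt : α) :
    I1 u V n E (T ++ [(0, k, pt)]) := by
  obtain ⟨δ, hδ, h⟩ := h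
  refine ⟨δ, hδ, ?_⟩
  filter_upwards [h] with κ hκ
  filter_upwards [hκ] with l hl
  exact hl.trans (pr_mono fun a _ ha => Dset_point n E T k pt κ a ha)

/-- Second invariant. -/
def I2 (u : Ultrafilter ℕ) (n : ℕ) (f : ℕ → List ℕ → α → List ℕ → ℝ) (y : ℕ → ℝ)
    (T : List (Tok α)) : Prop :=
  ∀ d < n, ∀ t ≤ n - 1 - d, ∀ (l₁ : List (Tok α)) (x : Tok α) (l₂ : List (Tok α)),
    (l₁ ++ x :: l₂).Sublist T → l₁.map Prod.fst = List.range' (n - d) d → x.1 = 0 →
    l₂.map Prod.fst = List.range' 1 t →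
    ∀ᶠ r : List ℕ in F u (n - 1 - d - t),
      y d ≤ f d (l₁.map (fun x => x.2.1)) x.2.2 (l₂.map (fun x => x.2.1) ++ r)

theorem I2_level (u : Ultrafilter ℕ) (n : ℕ) (f : ℕ → List ℕ → α → List ℕ → ℝ) (y : ℕ → ℝ)
    (T : List (Tok α)) (h : I2 u n f y T) (o : ℕ) (ho : 1 ≤ o) :
    ∀ᶠ k in u, ∀ pt : α, I2 u n f y (T ++ [(o, k, pt)]) := by
  have h1 : ∀ᶠ k in u, ∀ d ∈ range n, ∀ l₁ ∈ {p | p ∈ T.sublists}, ∀ x ∈ {x | x ∈ T},
      ∀ l₂ ∈ {p | p ∈ T.sublists}, (l₁ ++ x :: l₂).Sublist T →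
      l₁.map Prod.fst = List.range' (n - d) d → x.1 = 0 →
      l₂.length + 1 ≤ n - 1 - d →
      l₂.map Prod.fst = List.range' 1 l₂.length →
      ∀ᶠ r : List ℕ in F u (n - 1 - d - (l₂.length + 1)),
        y d ≤ f d (l₁.map (fun x => x.2.1)) x.2.2 (l₂.map (fun x => x.2.1) ++ (k :: r)) := by
    rw [Filter.eventually_all_finset]
    intro d hd
    rw [Filter.eventually_all_finite (List.finite_toSet _)]
    intro l₁ hl₁
    rw [Filter.eventually_all_finite (List.finite_toSet _)]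
    intro x hx
    rw [Filter.eventually_all_finite (List.finite_toSet _)]
    intro l₂ hl₂
    by_cases hc : (l₁ ++ x :: l₂).Sublist T ∧ l₁.map Prod.fst = List.range' (n - d) d ∧ x.1 = 0 ∧
      l₂.length + 1 ≤ n - 1 - d ∧ l₂.map Prod.fst = List.range' 1 l₂.length
    · obtain ⟨c1, c2, c3, c4, c5⟩ := hc
      have h2 := h d (Finset.mem_range.mp hd) l₂.length (by omega) l₁ x l₂ c1 c2 c3 c5
      have e : n - 1 - d - l₂.length = (n - 1 - d - (l₂.length + 1)) + 1 := by omega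
      rw [e, ev_succ] at h2
      filter_upwards [h2] with k hk _ _ _ _ _
      exact hk
    · refine Filter.Eventually.of_forall fun k c1 c2 c3 c4 c5 => ?_
      exact absurd ⟨c1, c2, c3, c4, c5⟩ hc
  filter_upwards [h1] with k hk pt
  intro d hd t ht l₁ x l₂ hsub hl₁ hx hl₂
  rcases sublist_concat_cases hsub with hsub | ⟨l', hl', hsub'⟩
  · exact h d hd t ht l₁ x l₂ hsub hl₁ hx hl₂
  · rcases List.eq_nil_or_concat' l₂ with rfl | ⟨l₂', z, rfl⟩
    · exfalso
      obtain ⟨e1, e2⟩ := List.append_inj' hl' (by simp)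
      have : x = (o, k, pt) := by simpa using e2
      rw [this] at hx
      simp only at hx
      omega
    · have hl'' : (l₁ ++ x :: l₂') ++ [z] = l' ++ [(o, k, pt)] := by
        rw [← hl']
        simp
      obtain ⟨e1, e2⟩ := List.append_inj' hl'' (by simp)
      have hz : z = (o, k, pt) := by simpa using e2
      subst hz
      rw [← e1] at hsub'
      have hlen := congrArg List.length hl₂
      simp only [List.length_map, List.length_append, List.length_singleton,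
        List.length_range'] at hlen
      subst hlen
      rw [List.range'_concat, List.map_append] at hl₂
      obtain ⟨e3, e4⟩ := List.append_inj' hl₂ (by simp)
      have m1 : l₁ ∈ T.sublists := by
        rw [List.mem_sublists]
        exact (List.sublist_append_left _ _).trans hsub'
      have m2 : x ∈ T := hsub'.subset (by simp)
      have m3 : l₂' ∈ T.sublists := by
        rw [List.mem_sublists]
        refine List.Sublist.trans ?_ hsub'
        exact (List.sublist_cons_self x l₂').trans (List.sublist_append_right _ _)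
      have h3 := hk d (Finset.mem_range.mpr hd) l₁ m1 x m2 l₂' m3 hsub' hl₁ hx ht e3
      filter_upwards [h3] with r hr
      simpa using hr

theorem I2_point (u : Ultrafilter ℕ) (n : ℕ) (f : ℕ → List ℕ → α → List ℕ → ℝ) (y : ℕ → ℝ)
    (T : List (Tok α)) (h : I2 u n f y T) (k : ℕ) (a : α) (κ : List ℕ) (hκ : κ.length = n - 1)
    (ha : Dset n (fun d low a => ∀ᶠ r : List ℕ in F u (n - 1 - d), y d ≤ f d low a r) T κ a) :
    I2 u n f y (T ++ [(0, k, a)]) := by
  intro d hd t ht l₁ x l₂ hsub hl₁ hx hl₂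
  rcases sublist_concat_cases hsub with hsub | ⟨l', hl', hsub'⟩
  · exact h d hd t ht l₁ x l₂ hsub hl₁ hx hl₂
  · rcases List.eq_nil_or_concat' l₂ with rfl | ⟨l₂', z, rfl⟩
    · obtain ⟨e1, e2⟩ := List.append_inj' hl' (by simp)
      have hx' : x = (0, k, a) := by simpa using e2
      have ht0 : t = 0 := by
        have := congrArg List.length hl₂
        simpa using this.symm
      subst ht0
      subst e1
      have h1 := ha d hd d le_rfl l₁ hsub' hl₁
      have e3 : κ.drop (n - 1 - d + d) = [] := by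
        apply List.drop_eq_nil_of_le
        omega
      rw [e3, List.append_nil] at h1
      rw [hx']
      simpa using h1
    · exfalso
      have hl'' : (l₁ ++ x :: l₂') ++ [z] = l' ++ [(0, k, a)] := by
        rw [← hl']
        simp
      obtain ⟨e1, e2⟩ := List.append_inj' hl'' (by simp)
      have hz : z = (0, k, a) := by simpa using e2
      have : (0 : ℕ) ∈ List.range' 1 t := by
        rw [← hl₂, hz]
        simp
      rw [List.mem_range'_1] at this
      omega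

end Greedy

end SynProd
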